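import Pool.Agent.Q188.MB.Cmp

/-!
# Second moments of the radial companion
-/

set_option autoImplicit false

namespace Pool.Agent.Q188.MB

open MeasureTheory Set Filter Topology
open scoped ENNReal InnerProductSpace
open Pool.Agent.W695.KH (EV VV)
open Pool.Agent.Q188.NC

section ball

variable {n : ℕ}

theorem bh_iso (r : ℝ) (L : EuclideanSpace ℝ (Fin n) ≃ₗᵢ[ℝ] EuclideanSpace ℝ (Fin n))
    (φ : EuclideanSpace ℝ (Fin n) → ℝ) :
    ∫ y, φ (L y) ∂(bh (Metric.ball 0 r)) = ∫ y, φ y ∂(bh (Metric.ball 0 r)) := by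
  unfold bh
  rw [integral_smul_measure, integral_smul_measure]
  congr 1
  have h1 := (L.measurePreserving).setIntegral_preimage_emb L.toHomeomorph.measurableEmbedding φ
    (Metric.ball 0 r)
  rw [L.preimage_ball, map_zero] at h1
  exact h1

theorem pp_iso (r : ℝ) (hr : 0 < r) (L : EuclideanSpace ℝ (Fin n) ≃ₗᵢ[ℝ] EuclideanSpace ℝ (Fin n))
    (u : EuclideanSpace ℝ (Fin n)) :
    pp (Metric.ball 0 r) (L u) = pp (Metric.ball 0 r) u := by
  unfold pp
  rw [← bh_iso r L]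
  congr 1
  ext y
  rw [LinearIsometryEquiv.inner_map_map, gauge_ball hr.le, gauge_ball hr.le,
    LinearIsometryEquiv.norm_map]

theorem pp_norm (r : ℝ) (hr : 0 < r) {u v : EuclideanSpace ℝ (Fin n)} (h : ‖u‖ = ‖v‖) :
    pp (Metric.ball 0 r) u = pp (Metric.ball 0 r) v := by
  have h1 : (ℝ ∙ (u - v))ᗮ.reflection u = v := Submodule.reflection_sub h
  rw [← h1, pp_iso r hr]

theorem pp_smul (B : Set (EuclideanSpace ℝ (Fin n))) (c : ℝ) (u : EuclideanSpace ℝ (Fin n)) :
    pp B (c • u) = c ^ 2 * pp B u := by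
  unfold pp
  rw [← integral_const_mul]
  congr 1
  ext y
  rw [real_inner_smul_left]
  ring

theorem ball_dom {r : ℝ} (hr : 0 < r) : Dom (Metric.ball (0 : EuclideanSpace ℝ (Fin n)) r) where
  op := Metric.isOpen_ball
  conv := convex_ball _ _
  bdd := Metric.isBounded_ball
  ne := ⟨0, Metric.mem_ball_self hr⟩
  symm x hx := by
    rw [mem_ball_zero_iff] at *
    rwa [norm_neg]

theorem pp_ball (hn : 1 ≤ n) {r : ℝ} (hr : 0 < r) (u : EuclideanSpace ℝ (Fin n)) :
    pp (Metric.ball 0 r) u = qq (Metric.ball (0 : EuclideanSpace ℝ (Fin n)) r) / n * ‖u‖ ^ 2 := by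
  set j0 : Fin n := ⟨0, hn⟩
  set c : ℝ := pp (Metric.ball 0 r) (EuclideanSpace.single j0 (1 : ℝ)) with hc
  have h1 : ∀ j : Fin n, pp (Metric.ball 0 r) (EuclideanSpace.single j (1 : ℝ)) = c := fun j =>
    pp_norm r hr (by simp)
  have h2 : qq (Metric.ball (0 : EuclideanSpace ℝ (Fin n)) r) = n * c := by
    rw [qq_sum (ball_dom hr), Finset.sum_congr rfl fun j _ => h1 j, Finset.sum_const,
      Finset.card_univ, Fintype.card_fin, nsmul_eq_mul]
  have h3 : pp (Metric.ball 0 r) u = ‖u‖ ^ 2 * c := by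
    rw [hc, ← pp_smul]
    refine pp_norm r hr ?_
    rw [norm_smul]
    simp
  have hn' : (n : ℝ) ≠ 0 := by
    have : (0 : ℝ) < n := by exact_mod_cast hn
    exact this.ne'
  rw [h2, h3]
  field_simp

theorem bh_ne (hn : 1 ≤ n) (B : Set (EuclideanSpace ℝ (Fin n))) : ∀ᵐ y ∂(bh B), y ≠ 0 := by
  have hne : Nonempty (Fin n) := ⟨⟨0, hn⟩⟩
  have h0 : (volume : Measure (EuclideanSpace ℝ (Fin n))) {0} = 0 := measure_singleton 0
  rw [ae_iff]
  simp only [ne_eq, not_not, ofPred_eq_eq_singleton]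
  unfold bh
  rw [Measure.smul_apply, smul_eq_mul]
  have : (volume : Measure (EuclideanSpace ℝ (Fin n))).restrict B {0} = 0 :=
    le_antisymm ((Measure.restrict_apply_le _ _).trans h0.le) (zero_le)
  rw [this, mul_zero]

theorem qq_ball (hn : 1 ≤ n) {r : ℝ} (hr : 0 < r) :
    qq (Metric.ball (0 : EuclideanSpace ℝ (Fin n)) r) = r ^ 2 := by
  have hp := (ball_dom (n := n) hr).bh_prob
  unfold qq
  have h1 : ∫ y : EuclideanSpace ℝ (Fin n), ‖y‖ ^ 2 / gauge (Metric.ball 0 r) y ^ 2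
      ∂(bh (Metric.ball 0 r)) = ∫ _y, r ^ 2 ∂(bh (Metric.ball (0 : EuclideanSpace ℝ (Fin n)) r)) := by
    refine integral_congr_ae ((bh_ne hn _).mono fun y hy => ?_)
    show ‖y‖ ^ 2 / gauge (Metric.ball 0 r) y ^ 2 = r ^ 2
    have h2 : 0 < ‖y‖ := norm_pos_iff.2 hy
    rw [gauge_ball hr.le]
    field_simp
  rw [h1]
  simp

end ball

variable {b : ℕ} {d : Fin b → ℕ}
variable {B : ∀ i, Set (EuclideanSpace ℝ (Fin (d i)))} {Ω : Set (Ee d 0)}

theorem inner_blk (x y : Ee d 0) : ⟪x, y⟫_ℝ = ∑ i, ⟪blk x i, blk y i⟫_ℝ := by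
  rw [PiLp.inner_apply, Fintype.sum_sum_type, Fintype.sum_sigma]
  simp only [Finset.univ_eq_empty, Finset.sum_empty, add_zero]
  refine Finset.sum_congr rfl fun i _ => ?_
  rw [PiLp.inner_apply]
  rfl

/-- sums of independent centred variables -/
theorem sum_sq {X : Fin b → Type} [∀ i, MeasurableSpace (X i)] (μ : ∀ i, Measure (X i))
    [∀ i, IsProbabilityMeasure (μ i)] (φ : ∀ i, X i → ℝ) (hm : ∀ i, Measurable (φ i)) {M : ℝ}
    (hM : ∀ i x, |φ i x| ≤ M) (h0 : ∀ i, ∫ x, φ i x ∂(μ i) = 0) :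
    ∫ x, (∑ i, φ i (x i)) ^ 2 ∂(Measure.pi μ) = ∑ i, ∫ x, φ i x ^ 2 ∂(μ i) := by
  have hind := ProbabilityTheory.iIndepFun_pi (μ := μ) (X := φ) fun i => (hm i).aemeasurable
  have hL : ∀ i, MemLp (fun x : ∀ i, X i => φ i (x i)) 2 (Measure.pi μ) := fun i =>
    MemLp.of_bound ((hm i).comp (measurable_pi_apply i)).aestronglyMeasurable M
      (Eventually.of_forall fun x => hM i _)
  have hev : ∀ i (ψ : X i → ℝ), Measurable ψ → ∫ x : ∀ i, X i, ψ (x i) ∂(Measure.pi μ) =
      ∫ x, ψ x ∂(μ i) := by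
    intro i ψ hψ
    have h1 := (measurePreserving_eval μ i).map_eq
    rw [← h1, integral_map (measurable_pi_apply i).aemeasurable hψ.aestronglyMeasurable]
  have h1 := ProbabilityTheory.IndepFun.variance_sum (μ := Measure.pi μ)
    (X := fun i (x : ∀ i, X i) => φ i (x i)) (s := Finset.univ) (fun i _ => hL i)
    (fun i _ j _ hij => hind.indepFun hij)
  have hz : ∀ i, ∫ x : ∀ i, X i, φ i (x i) ∂(Measure.pi μ) = 0 := fun i => by
    rw [hev i _ (hm i), h0 i]
  have h2 : ∫ x : ∀ i, X i, (∑ i, fun x : ∀ i, X i => φ i (x i)) x ∂(Measure.pi μ) = 0 := by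
    simp only [Finset.sum_apply]
    rw [integral_finsetSum _ fun i _ => (hL i).integrable (by norm_num)]
    exact Finset.sum_eq_zero fun i _ => hz i
  have hae : AEMeasurable (∑ i, fun x : ∀ i, X i => φ i (x i)) (Measure.pi μ) :=
    Finset.aemeasurable_sum _ fun i _ => ((hm i).comp (measurable_pi_apply i)).aemeasurable
  rw [ProbabilityTheory.variance_of_integral_eq_zero hae h2] at h1
  have h3 : ∀ i, ProbabilityTheory.variance (fun x : ∀ i, X i => φ i (x i)) (Measure.pi μ) =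
      ∫ x, φ i x ^ 2 ∂(μ i) := by
    intro i
    have hae' : AEMeasurable (fun x : ∀ i, X i => φ i (x i)) (Measure.pi μ) :=
      ((hm i).comp (measurable_pi_apply i)).aemeasurable
    rw [ProbabilityTheory.variance_of_integral_eq_zero hae' (hz i)]
    exact hev i (fun x => φ i x ^ 2) ((hm i).pow_const 2)
  rw [Finset.sum_congr rfl fun i _ => h3 i] at h1
  rw [← h1]
  congr 1
  ext x
  simp [Finset.sum_apply]

/-- the covariance of a composition is block diagonal -/
theorem cov_diag (H : NCm B Ω) {e : Yy d} (he : ∀ i, gauge (B i) (e i) = 1) (θ : Ee d 0) :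
    EV Ω (fun x => ⟪θ, x⟫_ℝ ^ 2) = ∑ i, (∫ a, a.1 i ^ 2 ∂(al Ω e)) * pp (B i) (blk θ i) := by
  have := al_prob H he
  have : ∀ i, IsProbabilityMeasure (bh (B i)) := fun i => (H.dB i).bh_prob
  obtain ⟨C, hC0, hC⟩ := PhE_bd (k := 0) H.dB
  obtain ⟨ρ, hρ0, hρ⟩ := al_bd H he
  rw [rep H he _ (by fun_prop)]
  have hPm := PhE_meas (k := 0) H.dB
  have hint : Integrable (fun z : Aa b 0 × Yy d => ⟪θ, PhE B z⟫_ℝ ^ 2)
      ((al Ω e).prod (Measure.pi fun i => bh (B i))) := by
    refine Integrable.of_bound (C := (‖θ‖ * (C * ρ)) ^ 2)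
      (Measurable.aestronglyMeasurable (by fun_prop)) ?_
    filter_upwards [(Measure.quasiMeasurePreserving_fst (μ := al Ω e)
      (ν := Measure.pi fun i => bh (B i))).ae (ae_D0 H e)] with z hz
    rw [Real.norm_eq_abs, abs_of_nonneg (sq_nonneg _), ← sq_abs]
    refine pow_le_pow_left₀ (abs_nonneg _) ((abs_real_inner_le_norm _ _).trans ?_) 2
    refine mul_le_mul_of_nonneg_left ?_ (norm_nonneg _)
    exact (hC z.1 z.2).trans (mul_le_mul_of_nonneg_left (hρ _ hz) hC0)
  rw [integral_prod _ hint]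
  have hgm : ∀ i, Measurable (gauge (B i)) := fun i => (H.dB i).cont.measurable
  have h1 : ∀ a : Aa b 0, ∫ Y, ⟪θ, PhE B (a, Y)⟫_ℝ ^ 2 ∂(Measure.pi fun i => bh (B i)) =
      ∑ i, a.1 i ^ 2 * pp (B i) (blk θ i) := by
    intro a
    have h2 : ∀ Y : Yy d, ⟪θ, PhE B (a, Y)⟫_ℝ =
        ∑ i, (fun i (y : EuclideanSpace ℝ (Fin (d i))) =>
          a.1 i * ⟪blk θ i, (gauge (B i) y)⁻¹ • y⟫_ℝ) i (Y i) := by
      intro Y
      rw [inner_blk]
      refine Finset.sum_congr rfl fun i _ => ?_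
      rw [blk_PhE, div_eq_mul_inv, mul_smul, real_inner_smul_right]
    simp only [h2]
    have h3 : ∀ i, ∃ C : ℝ, 0 ≤ C ∧ ∀ y, ‖y‖ ≤ C * gauge (B i) y := fun i => (H.dB i).norm_le
    choose D hD0 hD using h3
    have hmeas : ∀ i, Measurable fun y : EuclideanSpace ℝ (Fin (d i)) =>
        a.1 i * ⟪blk θ i, (gauge (B i) y)⁻¹ • y⟫_ℝ := fun i => by
      have := hgm i
      have h4 : Measurable fun y : EuclideanSpace ℝ (Fin (d i)) => (gauge (B i) y)⁻¹ • y :=
        (hgm i).inv.smul measurable_id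
      exact measurable_const.mul (Measurable.inner measurable_const h4)
    rw [sum_sq (fun i => bh (B i)) (fun i y => a.1 i * ⟪blk θ i, (gauge (B i) y)⁻¹ • y⟫_ℝ) hmeas
      (M := ∑ i, |a.1 i| * (‖blk θ i‖ * D i)) (fun i y => ?_) (fun i => ?_)]
    · refine Finset.sum_congr rfl fun i _ => ?_
      unfold pp
      rw [← integral_const_mul]
      congr 1
      ext y
      rw [real_inner_smul_right]
      ring
    · have h5 : |a.1 i * ⟪blk θ i, (gauge (B i) y)⁻¹ • y⟫_ℝ| ≤ |a.1 i| * (‖blk θ i‖ * D i) := by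
        rw [abs_mul]
        refine mul_le_mul_of_nonneg_left ((abs_real_inner_le_norm _ _).trans ?_) (abs_nonneg _)
        refine mul_le_mul_of_nonneg_left ?_ (norm_nonneg _)
        have := (H.dB i).unit_le (hD i) y
        rwa [abs_of_nonneg (hD0 i)] at this
      exact h5.trans (Finset.single_le_sum (f := fun i => |a.1 i| * (‖blk θ i‖ * D i))
        (fun i _ => mul_nonneg (abs_nonneg _) (mul_nonneg (norm_nonneg _) (hD0 i)))
        (Finset.mem_univ i))
    · -- odd function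
      have hodd : ∫ y, a.1 i * ⟪blk θ i, (gauge (B i) y)⁻¹ • y⟫_ℝ ∂(bh (B i)) =
          -∫ y, a.1 i * ⟪blk θ i, (gauge (B i) y)⁻¹ • y⟫_ℝ ∂(bh (B i)) := by
        rw [← integral_neg]
        have h6 : ∀ φ : EuclideanSpace ℝ (Fin (d i)) → ℝ,
            ∫ y, φ (-y) ∂(bh (B i)) = ∫ y, φ y ∂(bh (B i)) := by
          intro φ
          unfold bh
          rw [integral_smul_measure, integral_smul_measure]
          congr 1
          have h7 := ((LinearIsometryEquiv.neg ℝ (E := EuclideanSpace ℝ (Fin (d i)))).measurePreserving).setIntegral_preimage_emb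
            (LinearIsometryEquiv.neg ℝ (E := EuclideanSpace ℝ (Fin (d i)))).toHomeomorph.measurableEmbedding
            φ (B i)
          have h8 : (LinearIsometryEquiv.neg ℝ (E := EuclideanSpace ℝ (Fin (d i)))) ⁻¹' (B i) =
              B i := by
            ext y
            constructor
            · intro hy
              have := (H.dB i).symm _ hy
              simpa using this
            · intro hy
              exact (H.dB i).symm _ hy
          rw [h8] at h7
          exact h7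
        rw [← h6]
        congr 1
        ext y
        rw [gauge_neg (fun x hx => (H.dB i).symm x hx), smul_neg, inner_neg_right]
        ring
      linarith
  simp only [h1]
  rw [integral_finsetSum _ fun i _ => (al_int H he (φ := fun a : Aa b 0 => a.1 i ^ 2)
      (((continuous_apply i).comp continuous_fst).pow 2)).mul_const _]
  refine Finset.sum_congr rfl fun i _ => ?_
  rw [integral_mul_const]

/-- the covariance of the companion -/
theorem cov_Oq (H : NCm B Ω) {e : Yy d} (he : ∀ i, gauge (B i) (e i) = 1) {s : ℝ}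
    (hs : ∀ θ : Ee d 0, EV Ω (fun x => ⟪θ, x⟫_ℝ ^ 2) ≤ s * ‖θ‖ ^ 2) (θ : Ee d 0) :
    EV (Oq B Ω e) (fun x => ⟪θ, x⟫_ℝ ^ 2) ≤ s * ‖θ‖ ^ 2 := by
  have H' := Oq_ncm H he
  obtain ⟨e', he'⟩ := exists_ref H'.dB H'.pos
  rw [cov_diag H' he', al_Oq H he he', norm_sq_eq]
  simp only [Finset.univ_eq_empty, Finset.sum_empty, add_zero]
  rw [Finset.mul_sum]
  refine Finset.sum_le_sum fun i _ => ?_
  have hq := qq_pos (H.pos i) (H.dB i)
  have h1 : pp (Bq B i) (blk θ i) = qq (B i) / d i * ‖blk θ i‖ ^ 2 := by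
    unfold Bq
    rw [pp_ball (H.pos i) (Real.sqrt_pos.2 hq), qq_ball (H.pos i) (Real.sqrt_pos.2 hq),
      Real.sq_sqrt hq.le]
  rw [h1]
  have h2 := cov_q H he hs i
  have hd : (0 : ℝ) < d i := by exact_mod_cast H.pos i
  calc (∫ a, a.1 i ^ 2 ∂(al Ω e)) * (qq (B i) / d i * ‖blk θ i‖ ^ 2)
      = (qq (B i) * ∫ a, a.1 i ^ 2 ∂(al Ω e)) / d i * ‖blk θ i‖ ^ 2 := by ring
    _ ≤ (d i * s) / d i * ‖blk θ i‖ ^ 2 := by gcongr
    _ = s * ‖blk θ i‖ ^ 2 := by field_simp

end Pool.Agent.Q188.MB
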