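import Pool.Agent.Q188.NC.Kls

/-!
# The radial companion of a composition
-/

set_option autoImplicit false

namespace Pool.Agent.Q188.MB

open MeasureTheory Set Filter Topology
open scoped ENNReal InnerProductSpace
open Pool.Agent.W695.KH (EV VV)
open Pool.Agent.Q188.NC

section unc

variable {b k : ℕ} {d : Fin b → ℕ}
variable {B : ∀ i, Set (EuclideanSpace ℝ (Fin (d i)))} {Ω : Set (Ee d k)}

/-- the radii region is invariant under changes of signs -/
theorem D0_sign (H : NCm B Ω) {e : Yy d} (he : ∀ i, gauge (B i) (e i) = 1) {a c : Aa b k}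
    (h : ∀ i, |c.1 i| = |a.1 i|) (h2 : c.2 = a.2) (ha : a ∈ D0 Ω e) : c ∈ D0 Ω e := by
  refine H.dep (psi e a) (psi e c) (fun i => ?_) (by rw [psi_lst, psi_lst, h2]) ha
  rw [psi_blk, psi_blk, (H.dB i).gauge_smul, (H.dB i).gauge_smul, he, h i]

theorem D0_one (H : NCm B Ω) {e : Yy d} (he : ∀ i, gauge (B i) (e i) = 1) {a : Aa b k} (i : Fin b)
    {t : ℝ} (ht : |t| ≤ |a.1 i|) (ha : a ∈ D0 Ω e) : (Function.update a.1 i t, a.2) ∈ D0 Ω e := by
  by_cases h0 : a.1 i = 0
  · rw [h0, abs_zero] at ht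
    have ht0 : t = 0 := abs_nonpos_iff.1 ht
    rw [ht0, ← h0, Function.update_eq_self]
    exact ha
  · have hpos : 0 < |a.1 i| := abs_pos.2 h0
    have hc : ((Function.update a.1 i (-a.1 i), a.2) : Aa b k) ∈ D0 Ω e := by
      refine D0_sign H he (a := a) (fun l => ?_) rfl ha
      by_cases hl : l = i
      · subst hl
        simp
      · simp [Function.update_of_ne hl]
    have hq : |t / a.1 i| ≤ 1 := by
      rw [abs_div, div_le_one hpos]
      exact ht
    obtain ⟨hq1, hq2⟩ := abs_le.1 hq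
    have h3 := D0_conv H.dΩ e ha hc (show 0 ≤ (1 + t / a.1 i) / 2 by linarith)
      (show 0 ≤ (1 - t / a.1 i) / 2 by linarith) (by ring)
    have h4 : ((1 + t / a.1 i) / 2) • a + ((1 - t / a.1 i) / 2) •
        ((Function.update a.1 i (-a.1 i), a.2) : Aa b k) = (Function.update a.1 i t, a.2) := by
      refine Prod.ext ?_ ?_
      · ext l
        show (1 + t / a.1 i) / 2 * a.1 l + (1 - t / a.1 i) / 2 * Function.update a.1 i (-a.1 i) l =
          Function.update a.1 i t l
        by_cases hl : l = i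
        · subst hl
          rw [Function.update_self, Function.update_self]
          field_simp
          ring
        · rw [Function.update_of_ne hl, Function.update_of_ne hl]
          ring
      · ext l
        show (1 + t / a.1 i) / 2 * a.2 l + (1 - t / a.1 i) / 2 * a.2 l = a.2 l
        ring
    rw [h4] at h3
    exact h3

/-- the radii region is unconditional -/
theorem D0_unc (H : NCm B Ω) {e : Yy d} (he : ∀ i, gauge (B i) (e i) = 1) {a c : Aa b k}
    (h : ∀ i, |c.1 i| ≤ |a.1 i|) (h2 : c.2 = a.2) (ha : a ∈ D0 Ω e) : c ∈ D0 Ω e := by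
  classical
  have key : ∀ S : Finset (Fin b),
      ((fun i => if i ∈ S then c.1 i else a.1 i, a.2) : Aa b k) ∈ D0 Ω e := by
    intro S
    induction S using Finset.induction_on with
    | empty => simpa using ha
    | insert i S hi ih =>
      have h3 := D0_one H he i (t := c.1 i) (by simpa [hi] using h i) ih
      have h4 : (Function.update (fun l => if l ∈ S then c.1 l else a.1 l) i (c.1 i) : Fin b → ℝ) =
          fun l => if l ∈ insert i S then c.1 l else a.1 l := by
        ext l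
        by_cases hl : l = i
        · subst hl
          simp
        · rw [Function.update_of_ne hl]
          simp [hl]
      simp only at h3
      rw [h4] at h3
      exact h3
  have h5 := key Finset.univ
  simp only [Finset.mem_univ, if_true] at h5
  rw [← h2] at h5
  exact h5

end unc

variable {b : ℕ} {d : Fin b → ℕ}
variable {B : ∀ i, Set (EuclideanSpace ℝ (Fin (d i)))} {Ω : Set (Ee d 0)}

theorem qq_pos {n : ℕ} (hn : 1 ≤ n) {B : Set (EuclideanSpace ℝ (Fin n))} (h : Dom B) : 0 < qq B := by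
  have hp := h.bh_prob
  refine lt_of_le_of_ne (qq_nn B) fun h0 => ?_
  have hnn : 0 ≤ fun y : EuclideanSpace ℝ (Fin n) => ‖y‖ ^ 2 / gauge B y ^ 2 := fun y => by
    positivity
  have h1 := (integral_eq_zero_iff_of_nonneg hnn (qq_int h)).1 h0.symm
  have hne : ∀ᵐ y ∂(bh B), y ≠ 0 := by
    have hne : Nonempty (Fin n) := ⟨⟨0, hn⟩⟩
    have h0 : (volume : Measure (EuclideanSpace ℝ (Fin n))) {0} = 0 := measure_singleton 0
    rw [ae_iff]
    simp only [ne_eq, not_not, ofPred_eq_eq_singleton]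
    unfold bh
    rw [Measure.smul_apply, smul_eq_mul]
    have : (volume : Measure (EuclideanSpace ℝ (Fin n))).restrict B {0} = 0 :=
      le_antisymm ((Measure.restrict_apply_le _ _).trans h0.le) (zero_le)
    rw [this, mul_zero]
  have h2 : ∀ᵐ _y ∂(bh B), False := by
    filter_upwards [h1, hne] with y hy hy0
    have h3 : ‖y‖ ^ 2 / gauge B y ^ 2 = 0 := hy
    have h4 := h.gauge_pos hy0
    have h5 : 0 < ‖y‖ := norm_pos_iff.2 hy0
    have h6 : 0 < ‖y‖ ^ 2 / gauge B y ^ 2 := by positivity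
    linarith
  rw [ae_iff] at h2
  simp at h2

/-- the balls with the same mean square radius -/
noncomputable def Bq (B : ∀ i, Set (EuclideanSpace ℝ (Fin (d i)))) (i : Fin b) :
    Set (EuclideanSpace ℝ (Fin (d i))) := Metric.ball 0 (Real.sqrt (qq (B i)))

theorem Bq_dom (hd : ∀ i, 1 ≤ d i) (h : ∀ i, Dom (B i)) (i : Fin b) : Dom (Bq B i) where
  op := Metric.isOpen_ball
  conv := convex_ball _ _
  bdd := Metric.isBounded_ball
  ne := ⟨0, Metric.mem_ball_self (Real.sqrt_pos.2 (qq_pos (hd i) (h i)))⟩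
  symm x hx := by
    unfold Bq at *
    rw [mem_ball_zero_iff] at *
    rwa [norm_neg]

theorem gauge_Bq (i : Fin b) (y : EuclideanSpace ℝ (Fin (d i))) :
    gauge (Bq B i) y = ‖y‖ / Real.sqrt (qq (B i)) :=
  gauge_ball (Real.sqrt_nonneg _) _

/-- the radii of a point of the companion -/
noncomputable def rr (B : ∀ i, Set (EuclideanSpace ℝ (Fin (d i)))) (y : Ee d 0) : Aa b 0 :=
  (fun i => gauge (Bq B i) (blk y i), 0)

/-- the radial companion -/
def Oq (B : ∀ i, Set (EuclideanSpace ℝ (Fin (d i)))) (Ω : Set (Ee d 0)) (e : Yy d) : Set (Ee d 0) :=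
  {y | rr B y ∈ D0 Ω e}

theorem blk_cont (i : Fin b) : Continuous fun y : Ee d 0 => blk y i := by
  unfold blk
  refine (PiLp.continuous_toLp 2 _).comp (continuous_pi fun j => ?_)
  exact PiLp.continuous_apply 2 _ _

theorem rr_cont (hd : ∀ i, 1 ≤ d i) (h : ∀ i, Dom (B i)) : Continuous (rr B) := by
  unfold rr
  refine Continuous.prodMk (continuous_pi fun i => ?_) continuous_const
  exact (Bq_dom hd h i).cont.comp (blk_cont i)

theorem rr_nn (B : ∀ i, Set (EuclideanSpace ℝ (Fin (d i)))) (y : Ee d 0) (i : Fin b) :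
    0 ≤ (rr B y).1 i := gauge_nonneg _

theorem Oq_dom (H : NCm B Ω) {e : Yy d} (he : ∀ i, gauge (B i) (e i) = 1) : Dom (Oq B Ω e) where
  op := (D0_open H.dΩ e).preimage (rr_cont H.pos H.dB)
  conv := by
    intro y hy z hz r s hr hs hrs
    have h1 := D0_conv H.dΩ e (show rr B y ∈ D0 Ω e from hy) (show rr B z ∈ D0 Ω e from hz) hr hs hrs
    refine D0_unc H he (fun i => ?_) (Subsingleton.elim _ _) h1
    have h2 : (r • rr B y + s • rr B z).1 i = r * (rr B y).1 i + s * (rr B z).1 i := rfl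
    rw [h2, abs_of_nonneg (rr_nn B _ i), abs_of_nonneg (add_nonneg (mul_nonneg hr (rr_nn B _ i))
      (mul_nonneg hs (rr_nn B _ i)))]
    show gauge (Bq B i) (blk (r • y + s • z) i) ≤
      r * gauge (Bq B i) (blk y i) + s * gauge (Bq B i) (blk z i)
    have h3 : blk (r • y + s • z) i = r • blk y i + s • blk z i := rfl
    rw [h3]
    refine (gauge_add_le (Bq_dom H.pos H.dB i).conv (Bq_dom H.pos H.dB i).absorbent _ _).trans ?_
    rw [(Bq_dom H.pos H.dB i).gauge_smul, (Bq_dom H.pos H.dB i).gauge_smul, abs_of_nonneg hr,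
      abs_of_nonneg hs]
  bdd := by
    obtain ⟨ρ, hρ0, hρ⟩ := al_bd H he
    rw [Metric.isBounded_iff_subset_closedBall 0]
    refine ⟨Real.sqrt (∑ i, (ρ ^ 2 * qq (B i))), fun y hy => ?_⟩
    rw [mem_closedBall_zero_iff]
    refine Real.le_sqrt_of_sq_le ?_
    rw [norm_sq_eq]
    simp only [Finset.univ_eq_empty, Finset.sum_empty, add_zero]
    refine Finset.sum_le_sum fun i _ => ?_
    have h1 := hρ _ hy
    have h2 : |(rr B y).1 i| ≤ ρ := by
      have h3 : ‖(rr B y).1 i‖ ≤ ‖rr B y‖ := (norm_le_pi_norm (rr B y).1 i).trans (norm_fst_le _)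
      exact h3.trans h1
    have hq := qq_pos (H.pos i) (H.dB i)
    have h4 : (rr B y).1 i = ‖blk y i‖ / Real.sqrt (qq (B i)) := gauge_Bq i _
    rw [h4, abs_of_nonneg (by positivity), div_le_iff₀ (Real.sqrt_pos.2 hq)] at h2
    calc ‖blk y i‖ ^ 2 ≤ (ρ * Real.sqrt (qq (B i))) ^ 2 := pow_le_pow_left₀ (norm_nonneg _) h2 2
      _ = ρ ^ 2 * qq (B i) := by rw [mul_pow, Real.sq_sqrt hq.le]
  ne := ⟨0, by
    show rr B 0 ∈ D0 Ω e
    have h1 : rr B (0 : Ee d 0) = 0 := by
      refine Prod.ext ?_ rfl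
      ext i
      show gauge (Bq B i) (blk (0 : Ee d 0) i) = 0
      have : blk (0 : Ee d 0) i = 0 := rfl
      rw [this, gauge_zero]
    rw [h1]
    show psi e (0 : Aa b 0) ∈ Ω
    have h2 : psi e (0 : Aa b 0) = 0 := by
      have := psi_lin (k := 0) e 0 0 0 0
      simpa using this
    rw [h2]
    exact H.dΩ.zero_mem⟩
  symm y hy := by
    have h1 : rr B (-y) = rr B y := by
      refine Prod.ext ?_ rfl
      ext i
      show gauge (Bq B i) (blk (-y) i) = gauge (Bq B i) (blk y i)
      have : blk (-y) i = -blk y i := rfl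
      rw [this, gauge_neg (fun x hx => (Bq_dom H.pos H.dB i).symm x hx)]
    show rr B (-y) ∈ D0 Ω e
    rw [h1]
    exact hy

theorem Oq_ncm (H : NCm B Ω) {e : Yy d} (he : ∀ i, gauge (B i) (e i) = 1) :
    NCm (Bq B) (Oq B Ω e) where
  pos := H.pos
  dB := Bq_dom H.pos H.dB
  dΩ := Oq_dom H he
  dep x y h _ hx := by
    have h1 : rr B y = rr B x := by
      refine Prod.ext ?_ rfl
      ext i
      exact (h i).symm
    show rr B y ∈ D0 Ω e
    rw [h1]
    exact hx

theorem D0_Oq (H : NCm B Ω) {e : Yy d} (he : ∀ i, gauge (B i) (e i) = 1) {e' : Yy d}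
    (he' : ∀ i, gauge (Bq B i) (e' i) = 1) : D0 (Oq B Ω e) e' = D0 Ω e := by
  ext a
  have h1 : ∀ i, |(rr B (psi e' a)).1 i| = |a.1 i| := by
    intro i
    show |gauge (Bq B i) (blk (psi e' a) i)| = |a.1 i|
    rw [psi_blk, (Bq_dom H.pos H.dB i).gauge_smul, he', mul_one, abs_abs]
  constructor
  · intro ha
    have ha' : rr B (psi e' a) ∈ D0 Ω e := ha
    exact D0_sign H he (fun i => (h1 i).symm) (Subsingleton.elim _ _) ha'
  · intro ha
    show rr B (psi e' a) ∈ D0 Ω e
    exact D0_sign H he h1 (Subsingleton.elim _ _) ha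

theorem al_Oq (H : NCm B Ω) {e : Yy d} (he : ∀ i, gauge (B i) (e i) = 1) {e' : Yy d}
    (he' : ∀ i, gauge (Bq B i) (e' i) = 1) : al (Oq B Ω e) e' = al Ω e := by
  unfold al al0
  rw [D0_Oq H he he']

end Pool.Agent.Q188.MB
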