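import Pool.Agent.Q188.NC.ES

/-!
# The Efron-Stein inequality, integral form
-/

set_option autoImplicit false

namespace Pool.Agent.Q188.MB

open MeasureTheory Set Filter Topology
open Pool.Agent.Q188.NC

section defs

variable {ι : Type} [DecidableEq ι] {X : ι → Type} [∀ i, MeasurableSpace (X i)]

/-- the variance in one variable -/
noncomputable def vi (μ : ∀ i, Measure (X i)) (g : (∀ i, X i) → ℝ) (i : ι) (x : ∀ i, X i) : ℝ :=
  ∫ t, (g (Function.update x i t) - ∫ t', g (Function.update x i t') ∂(μ i)) ^ 2 ∂(μ i)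

variable (μ : ∀ i, Measure (X i)) [∀ i, IsProbabilityMeasure (μ i)] {g : (∀ i, X i) → ℝ}

theorem vi_nn (i : ι) (x : ∀ i, X i) : 0 ≤ vi μ g i x := integral_nonneg fun _ => sq_nonneg _

theorem vi_meas (hg : Measurable g) (i : ι) : Measurable (vi μ g i) := by
  have h1 : Measurable fun p : (∀ i, X i) × X i => g (Function.update p.1 i p.2) :=
    hg.comp measurable_update'
  have h2 : Measurable fun x : ∀ i, X i => ∫ t', g (Function.update x i t') ∂(μ i) :=
    (h1.stronglyMeasurable.integral_prod_right' (ν := μ i)).measurable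
  have h3 : Measurable fun p : (∀ i, X i) × X i =>
      (g (Function.update p.1 i p.2) - ∫ t', g (Function.update p.1 i t') ∂(μ i)) ^ 2 :=
    (h1.sub (h2.comp measurable_fst)).pow_const 2
  exact (h3.stronglyMeasurable.integral_prod_right' (ν := μ i)).measurable

theorem vi_bd {M : ℝ} (hM : ∀ x, |g x| ≤ M) (i : ι) (x : ∀ i, X i) : |vi μ g i x| ≤ (M + M) ^ 2 := by
  have h1 : |∫ t', g (Function.update x i t') ∂(μ i)| ≤ M := by
    have := norm_integral_le_of_norm_le_const (μ := μ i) (f := fun t => g (Function.update x i t))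
      (C := M) (Eventually.of_forall fun c => hM _)
    rwa [probReal_univ, mul_one, Real.norm_eq_abs] at this
  have h2 := norm_integral_le_of_norm_le_const (μ := μ i)
    (f := fun t => (g (Function.update x i t) - ∫ t', g (Function.update x i t') ∂(μ i)) ^ 2)
    (C := (M + M) ^ 2) (Eventually.of_forall fun c => by
      rw [Real.norm_eq_abs, abs_of_nonneg (sq_nonneg _), ← sq_abs]
      exact pow_le_pow_left₀ (abs_nonneg _) ((abs_sub _ _).trans (add_le_add (hM _) h1)) 2)
  rwa [probReal_univ, mul_one, Real.norm_eq_abs] at h2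

end defs

/-- **Efron-Stein inequality** -/
theorem es2 : ∀ {n : ℕ} {X : Fin n → Type} [∀ i, MeasurableSpace (X i)] (μ : ∀ i, Measure (X i))
    [∀ i, IsProbabilityMeasure (μ i)] (g : (∀ i, X i) → ℝ) (_ : Measurable g) (M : ℝ)
    (_ : ∀ x, |g x| ≤ M),
    ∫ x, (g x - ∫ y, g y ∂(Measure.pi μ)) ^ 2 ∂(Measure.pi μ) ≤
      ∑ i, ∫ x, vi μ g i x ∂(Measure.pi μ) := by
  intro n
  induction n with
  | zero =>
    intro X _ μ _ g hg M hM
    have h1 : ∀ x y : (∀ i, X i), g x = g y := fun x y => by rw [Subsingleton.elim x y]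
    have h2 : ∀ x, ∫ y, g y ∂(Measure.pi μ) = g x := by
      intro x
      rw [integral_congr_ae (Eventually.of_forall fun y => h1 y x)]
      simp
    rw [integral_congr_ae (g := fun _ => 0) (Eventually.of_forall fun x => by
      show (g x - ∫ y, g y ∂(Measure.pi μ)) ^ 2 = 0
      rw [h2 x]; ring)]
    simp
  | succ n ih =>
    intro X _ μ _ g hg M hM
    have h1 := (measurePreserving_piFinSuccAbove μ 0).symm
    set e := MeasurableEquiv.piFinSuccAbove X 0 with he
    have hint : ∀ φ : (∀ i, X i) → ℝ, ∫ x, φ x ∂(Measure.pi μ) =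
        ∫ z, φ (e.symm z) ∂((μ 0).prod (Measure.pi fun j => μ (Fin.succAbove 0 j))) := fun φ =>
      (h1.integral_comp e.symm.measurableEmbedding φ).symm
    simp only [hint]
    set G : X 0 × (∀ j, X (Fin.succAbove 0 j)) → ℝ := fun z => g (e.symm z) with hG
    have hGm : Measurable G := hg.comp e.symm.measurable
    have hGM : ∀ z, |G z| ≤ M := fun z => hM _
    set ν := Measure.pi fun j => μ (Fin.succAbove 0 j) with hν
    have hνp : IsProbabilityMeasure ν := by rw [hν]; infer_instance
    have hvp := var_prod (μ 0) ν G hGm M hGM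
    have hvm : ∀ i, Measurable fun z => vi μ g i (e.symm z) := fun i =>
      (vi_meas μ hg i).comp e.symm.measurable
    have hvI : ∀ i, Integrable (fun z => vi μ g i (e.symm z)) ((μ 0).prod ν) := fun i =>
      int_bdd (hvm i) (M := (M + M) ^ 2) fun z => vi_bd μ hM i _
    rw [hvp, Fin.sum_univ_succAbove _ 0, add_comm]
    refine add_le_add ?_ ?_
    · -- the first coordinate
      have hGr : ∀ r, Measurable fun a => G (a, r) := fun r => by fun_prop
      set q : (∀ j, X (Fin.succAbove 0 j)) → ℝ := fun r => ∫ a, G (a, r) ∂(μ 0) with hq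
      have hqm : Measurable q :=
        (hGm.comp measurable_swap).stronglyMeasurable.integral_prod_right' (ν := μ 0) |>.measurable
      have hqM : ∀ r, |q r| ≤ M := by
        intro r
        have := norm_integral_le_of_norm_le_const (μ := μ 0) (f := fun a => G (a, r)) (C := M)
          (Eventually.of_forall fun c => hGM _)
        change |∫ a, G (a, r) ∂(μ 0)| ≤ M
        simpa using this
      have hsw : ∫ a', ∫ c', G (a', c') ∂ν ∂(μ 0) = ∫ r, q r ∂ν :=
        integral_integral_swap (int_bdd hGm hGM)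
      have h3 : ∀ a, ((∫ c, G (a, c) ∂ν) - ∫ a', ∫ c', G (a', c') ∂ν ∂(μ 0)) ^ 2 ≤
          ∫ r, (G (a, r) - q r) ^ 2 ∂ν := by
        intro a
        have hGa : Measurable fun c => G (a, c) := by fun_prop
        rw [hsw, ← integral_sub (int_bdd hGa fun c => hGM _) (int_bdd hqm hqM)]
        exact sq_int_le (hGa.sub hqm) (M := M + M) fun x =>
          (abs_sub _ _).trans (add_le_add (hGM _) (hqM _))
      have hD : Measurable fun z : X 0 × (∀ j, X (Fin.succAbove 0 j)) => (G z - q z.2) ^ 2 := by
        fun_prop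
      have hDM : ∀ z : X 0 × (∀ j, X (Fin.succAbove 0 j)), |(G z - q z.2) ^ 2| ≤ (M + M) ^ 2 := by
        intro z
        rw [abs_of_nonneg (sq_nonneg _), ← sq_abs]
        exact pow_le_pow_left₀ (abs_nonneg _) ((abs_sub _ _).trans (add_le_add (hGM _) (hqM _))) 2
      have i1 : Integrable (fun a => ∫ r, (G (a, r) - q r) ^ 2 ∂ν) (μ 0) := by
        refine int_bdd (M := (M + M) ^ 2)
          (hD.stronglyMeasurable.integral_prod_right' (ν := ν)).measurable fun a => ?_
        have := norm_integral_le_of_norm_le_const (μ := ν) (f := fun r => (G (a, r) - q r) ^ 2)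
          (C := (M + M) ^ 2) (Eventually.of_forall fun c => hDM (a, c))
        rwa [probReal_univ, mul_one, Real.norm_eq_abs] at this
      have h4 : ∫ a, ((∫ c, G (a, c) ∂ν) - ∫ a', ∫ c', G (a', c') ∂ν ∂(μ 0)) ^ 2 ∂(μ 0) ≤
          ∫ a, ∫ r, (G (a, r) - q r) ^ 2 ∂ν ∂(μ 0) :=
        integral_mono_of_nonneg (Eventually.of_forall fun a => sq_nonneg _) i1
          (Eventually.of_forall h3)
      have h5 : ∫ a, ∫ r, (G (a, r) - q r) ^ 2 ∂ν ∂(μ 0) =
          ∫ r, ∫ a, (G (a, r) - q r) ^ 2 ∂(μ 0) ∂ν := integral_integral_swap (int_bdd hD hDM)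
      have h6 : ∀ z, vi μ g 0 (e.symm z) =
          (fun r => ∫ a, (G (a, r) - q r) ^ 2 ∂(μ 0)) z.2 := by
        intro z
        have e1 : ∀ t, g (Function.update (e.symm z) 0 t) = G (t, z.2) := by
          intro t
          show _ = g (e.symm (t, z.2))
          congr 1
          exact Fin.update_insertNth 0 z.1 t z.2
        show ∫ t, (g (Function.update (e.symm z) 0 t) -
          ∫ t', g (Function.update (e.symm z) 0 t') ∂(μ 0)) ^ 2 ∂(μ 0) = _
        simp only [e1]
        rfl
      refine h4.trans ?_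
      rw [h5]
      simp only [h6]
      have h7 := integral_fun_snd (μ := μ 0) (ν := ν) (fun r => ∫ a, (G (a, r) - q r) ^ 2 ∂(μ 0))
      simp only [probReal_univ, one_smul] at h7
      exact le_of_eq h7.symm
    · have h3 : ∀ a, ∫ c, (G (a, c) - ∫ c', G (a, c') ∂ν) ^ 2 ∂ν ≤
          ∑ j, ∫ c, vi μ g (Fin.succAbove 0 j) (e.symm (a, c)) ∂ν := by
        intro a
        refine (ih (fun j => μ (Fin.succAbove 0 j)) (fun c => G (a, c)) (by fun_prop) M
          (fun x => hGM _)).trans (le_of_eq ?_)
        refine Finset.sum_congr rfl fun j _ => ?_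
        refine integral_congr_ae (Eventually.of_forall fun r => ?_)
        have e1 : ∀ t, g (Function.update (e.symm (a, r)) (Fin.succAbove 0 j) t) =
            G (a, Function.update r j t) := by
          intro t
          show _ = g (e.symm (a, Function.update r j t))
          congr 1
          exact (Fin.insertNth_update 0 a j t r).symm
        show ∫ t, (G (a, Function.update r j t) - ∫ t', G (a, Function.update r j t')
          ∂(μ (Fin.succAbove 0 j))) ^ 2 ∂(μ (Fin.succAbove 0 j)) =
          ∫ t, (g (Function.update (e.symm (a, r)) (Fin.succAbove 0 j) t) -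
            ∫ t', g (Function.update (e.symm (a, r)) (Fin.succAbove 0 j) t')
              ∂(μ (Fin.succAbove 0 j))) ^ 2 ∂(μ (Fin.succAbove 0 j))
        simp only [e1]
      have i2 : ∀ j, Integrable (fun a => ∫ c, vi μ g (Fin.succAbove 0 j) (e.symm (a, c)) ∂ν)
          (μ 0) := fun j => (hvI (Fin.succAbove 0 j)).integral_prod_left
      calc _ ≤ ∫ a, ∑ j, ∫ c, vi μ g (Fin.succAbove 0 j) (e.symm (a, c)) ∂ν ∂(μ 0) :=
            integral_mono_of_nonneg (Eventually.of_forall fun a => integral_nonneg fun c =>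
              sq_nonneg _) (integrable_finsetSum _ fun j _ => i2 j) (Eventually.of_forall h3)
        _ = ∑ j, ∫ a, ∫ c, vi μ g (Fin.succAbove 0 j) (e.symm (a, c)) ∂ν ∂(μ 0) :=
            integral_finsetSum _ fun j _ => i2 j
        _ = _ := by
            refine Finset.sum_congr rfl fun j _ => ?_
            exact (integral_prod _ (hvI (Fin.succAbove 0 j))).symm

end Pool.Agent.Q188.MB
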