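import Pool.Agent.Q188.MB.Kls
import Pool.Agent.Q188.NS.Iso

/-!
# Families of blocks and the space without the extra coordinates
-/

set_option autoImplicit false

namespace Pool.Agent.Q188.MB

open MeasureTheory Set Filter Topology
open scoped ENNReal InnerProductSpace
open Pool.Agent.W695.KH (EV VV Eu)
open Pool.Agent.Q188.NC

theorem pi_of_PoK {κ : Type} [Fintype κ] [Nonempty κ] {K : ℝ} {Ω : Set (EuclideanSpace ℝ κ)}
    (hΩ : Dom Ω) (h : Pool.Agent.Y506.KS.PoK Ω K) : PI K Ω := by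
  intro s hs f hf
  obtain ⟨a, ha, -⟩ := Pool.Agent.W932.KH.q_max (Ω := Ω) hΩ.op hΩ.bdd
  have h1 := Pool.Agent.W932.KH.q_pos hΩ.op hΩ.bdd hΩ.zero_mem a ha
  have h2 := hs a
  rw [ha] at h2
  have hs0 : 0 < s := by linarith
  exact h s hs0 hs f hf

theorem pi_mono {κ : Type} [Fintype κ] [Nonempty κ] {K K' : ℝ} {Ω : Set (EuclideanSpace ℝ κ)}
    (hΩ : Dom Ω) (h : PI K Ω) (hKK : K ≤ K') : PI K' Ω := by
  intro s hs f hf
  obtain ⟨a, ha, -⟩ := Pool.Agent.W932.KH.q_max (Ω := Ω) hΩ.op hΩ.bdd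
  have h1 := Pool.Agent.W932.KH.q_pos hΩ.op hΩ.bdd hΩ.zero_mem a ha
  have h2 := hs a
  rw [ha] at h2
  have hs0 : 0 < s := by linarith
  have hE : 0 ≤ EV Ω (fun x => ‖fderiv ℝ f x‖ ^ 2) :=
    div_nonneg (integral_nonneg fun x => sq_nonneg _) ENNReal.toReal_nonneg
  refine (h s hs f hf).trans ?_
  gcongr

/-- sections of products of low dimensional symmetric convex sets -/
theorem pi_sop {n : ℕ} (hn : 1 ≤ n) {Ω : Set (EuclideanSpace ℝ (Fin n))} (hΩ : Dom Ω) (m q N : ℕ)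
    (d : Fin N → ℕ) (Q : ∀ i, EuclideanSpace ℝ (Fin n) →ₗ[ℝ] EuclideanSpace ℝ (Fin (d i)))
    (D : ∀ i, Set (EuclideanSpace ℝ (Fin (d i)))) (hd : ∀ i, d i ≤ m) (hsum : ∑ i, d i ≤ n + q)
    (hD : ∀ i, Dom (D i)) (hrep : Ω = {x | ∀ i, Q i x ∈ D i}) :
    PI (Pool.Agent.Y506.KS.CB m q) Ω := by
  have hne' : Nonempty (Fin n) := ⟨⟨0, hn⟩⟩
  have hSB : ∀ i, Pool.Agent.Y506.KS.SB (D i) := fun i =>
    ⟨(hD i).op.measurableSet, (hD i).conv, (hD i).bdd, (hD i).symm, by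
      rw [(hD i).op.interior_eq]
      exact (hD i).ne⟩
  let Q' : ∀ i, EuclideanSpace ℝ (Fin n) →L[ℝ] EuclideanSpace ℝ (Fin (d i)) := fun i =>
    LinearMap.toContinuousLinearMap (Q i)
  have hKK : Ω = Pool.Agent.Y506.KS.KK Q' D := by
    rw [hrep]
    rfl
  have hQ : ∀ x, (∀ i, Q' i x = 0) → x = 0 := by
    intro x hx
    by_contra hne
    obtain ⟨R, hR⟩ := hΩ.bdd.exists_norm_le
    have hxn : 0 < ‖x‖ := norm_pos_iff.2 hne
    have hmem : ((|R| + 1) / ‖x‖) • x ∈ Ω := by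
      rw [hKK]
      intro i
      rw [map_smul, hx i, smul_zero]
      exact (hD i).zero_mem
    have h1 := hR _ hmem
    rw [norm_smul, Real.norm_of_nonneg (by positivity), div_mul_cancel₀ _ hxn.ne'] at h1
    linarith [le_abs_self R]
  have hP : Pool.Agent.Y506.KS.PoK Ω (Pool.Agent.Y506.KS.CB m q) := by
    rw [hKK]
    exact Pool.Agent.Y506.KS.KK_PoK hQ hSB m hd q (by simpa using hsum)
  exact pi_of_PoK hΩ hP

/-- sections of products of generalised `ℓ_p` balls, `p ≥ 2` -/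
theorem pi_pow {n : ℕ} (hn : 1 ≤ n) (q N : ℕ) (m : Fin N → ℕ) (p : ∀ i, Fin (m i) → ℝ)
    (ell : ∀ i, Fin (m i) → (EuclideanSpace ℝ (Fin n) →ₗ[ℝ] ℝ)) (hm : ∀ i, 1 ≤ m i)
    (hsum : ∑ i, m i ≤ n + q) (hp : ∀ i j, 2 ≤ p i j) {Ω : Set (EuclideanSpace ℝ (Fin n))}
    (hΩ : Dom Ω) (hrep : Ω = {x | ∀ i, ∑ j, |ell i j x| ^ p i j < 1}) :
    PI (Pool.Agent.Y506.KS.CP q) Ω := by
  have hne' : Nonempty (Fin n) := ⟨⟨0, hn⟩⟩
  let L : ∀ i, Fin (m i) → (EuclideanSpace ℝ (Fin n) →L[ℝ] ℝ) := fun i j =>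
    LinearMap.toContinuousLinearMap (ell i j)
  have hmem : ∀ x, x ∈ Ω ↔ ∀ i, Pool.Agent.Y506.KS.PS (p i) (L i) x < 1 := fun x => by
    rw [hrep]
    rfl
  have hker : ∀ x, (∀ i j, L i j x = 0) → x = 0 := by
    intro x hx
    refine Pool.Agent.Y506.KS.ker_triv hΩ.bdd fun c => ?_
    rw [hmem]
    intro i
    rw [Pool.Agent.Y506.KS.PS_zero (hp i) (L i) (fun j => by rw [map_smul, hx i j, smul_zero])]
    exact zero_lt_one
  have hP : Pool.Agent.Y506.KS.PoK Ω (Pool.Agent.Y506.KS.CP q) := by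
    have h1 := Pool.Agent.Y506.KS.pow_PoK Pool.Agent.Y506.KS.ij_open
      (fun i => Nat.lt_of_lt_of_le Nat.zero_lt_one (hm i)) hp hker q (by simpa using hsum)
    have e : Ω = {x | ∀ i, (fun t : ℝ => if t < 1 then (1 : ℝ) else 0)
        (∑ j, |L i j x| ^ p i j) = 1} := by
      ext x
      rw [hmem]
      refine forall_congr' fun i => ?_
      unfold Pool.Agent.Y506.KS.PS
      by_cases h3 : ∑ j, |L i j x| ^ p i j < 1
      · simp [h3]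
      · simp [h3]
    rw [e]
    exact h1
  exact pi_of_PoK hΩ hP

variable {b : ℕ} {d : Fin b → ℕ}

/-- the two spaces -/
noncomputable def sp (d : Fin b → ℕ) : Ee d 0 ≃ₗᵢ[ℝ] EuclideanSpace ℝ (Σ i : Fin b, Fin (d i)) :=
  LinearIsometryEquiv.piLpCongrLeft 2 ℝ ℝ (Equiv.sumEmpty _ _)

theorem sp_apply (x : Ee d 0) (i : Fin b) (j : Fin (d i)) : sp d x ⟨i, j⟩ = x (Sum.inl ⟨i, j⟩) := by
  unfold sp
  rw [LinearIsometryEquiv.piLpCongrLeft_apply]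
  rfl

/-- **compositions of many bodies** -/
theorem kls_sp (hb : 0 < b) {B : ∀ i, Set (EuclideanSpace ℝ (Fin (d i)))}
    {Ω : Set (EuclideanSpace ℝ (Σ i : Fin b, Fin (d i)))} (hd : ∀ i, 1 ≤ d i) (hB : ∀ i, Dom (B i))
    (hΩ : Dom Ω) (hdep : ∀ x y : EuclideanSpace ℝ (Σ i : Fin b, Fin (d i)),
      (∀ i, gauge (B i) (WithLp.toLp 2 fun j => x ⟨i, j⟩) =
        gauge (B i) (WithLp.toLp 2 fun j => y ⟨i, j⟩)) → x ∈ Ω → y ∈ Ω) {K : ℝ} (hK0 : 0 ≤ K)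
    (hK : ∀ i, PI K (B i)) {T : ℝ} (hT0 : 0 ≤ T) (hT : ∑ i, Real.exp (-(T * d i)) ≤ 1) :
    KLS (KC * (1 + K) * (1 + T) ^ 2) Ω := by
  set Ω' : Set (Ee d 0) := (sp d).symm '' Ω with hΩ'
  have hmem : ∀ x : Ee d 0, x ∈ Ω' ↔ sp d x ∈ Ω := by
    intro x
    rw [hΩ']
    constructor
    · rintro ⟨y, hy, rfl⟩
      rwa [LinearIsometryEquiv.apply_symm_apply]
    · intro h
      exact ⟨sp d x, h, LinearIsometryEquiv.symm_apply_apply _ _⟩
  have hblk : ∀ (x : Ee d 0) (i : Fin b), (WithLp.toLp 2 fun j => sp d x ⟨i, j⟩ :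
      EuclideanSpace ℝ (Fin (d i))) = blk x i := by
    intro x i
    ext j
    exact sp_apply x i j
  have H : NCm B Ω' := ⟨hd, hB, Pool.Agent.Q188.NS.dom_iso (sp d).symm hΩ, fun x y h _ hx => by
    rw [hmem] at hx ⊢
    refine hdep _ _ (fun i => ?_) hx
    rw [hblk, hblk]
    exact h i⟩
  have h1 := Pool.Agent.Q188.NS.kls_iso (sp d) (kls_many hb H hK0 hK hT0 hT)
  have h2 : (sp d) '' Ω' = Ω := by
    rw [hΩ', ← image_comp]
    ext x
    simp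
  rwa [h2] at h1

end Pool.Agent.Q188.MB
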