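import Pool.Agent.Q188.MB.Sm
import Pool.Agent.Q188.NC.Kls
import Pool.Agent.TH610.RB.Core

/-!
# The variance inequality for radial compositions
-/

set_option autoImplicit false

namespace Pool.Agent.Q188.MB

open MeasureTheory Set Filter Topology
open scoped ENNReal InnerProductSpace
open Pool.Agent.W695.KH (EV VV)
open Pool.Agent.Q188.NC
open Pool.Agent.H212R2.KLS (mu Bdd)
open Pool.Agent.TH594.KP (GD)

variable {b : ℕ} {d : Fin b → ℕ}

/-- block of a coordinate -/
def pa (i : Kk d 0) : Fin b := Sum.elim (fun p => p.1) (fun j => j.elim0) i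

theorem norm_pa (x : Ee d 0) (i : Fin b) :
    ‖Pool.Agent.TH610.RB.P (pa (d := d)) i x‖ = ‖blk x i‖ := by
  refine (sq_eq_sq₀ (norm_nonneg _) (norm_nonneg _)).1 ?_
  rw [Pool.Agent.TH610.RB.norm_sq_P, EuclideanSpace.norm_sq_eq, Fintype.sum_sum_type,
    Fintype.sum_sigma]
  simp only [Finset.univ_eq_empty, Finset.sum_empty, add_zero]
  rw [Finset.sum_eq_single i]
  · refine Finset.sum_congr rfl fun j _ => ?_
    have : pa (d := d) (Sum.inl ⟨i, j⟩) = i := rfl
    rw [if_pos this, Real.norm_eq_abs, sq_abs]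
    rfl
  · intro l _ hl
    refine Finset.sum_eq_zero fun j _ => ?_
    have : pa (d := d) (Sum.inl ⟨l, j⟩) = l := rfl
    rw [this, if_neg hl]
  · exact fun h => absurd (Finset.mem_univ i) h

theorem card_pa (i : Fin b) : (Finset.univ.filter fun j : Kk d 0 => pa j = i).card = d i := by
  have h1 : (Finset.univ.filter fun j : Kk d 0 => pa j = i) =
      Finset.univ.map ⟨fun j : Fin (d i) => (Sum.inl ⟨i, j⟩ : Kk d 0), fun j l h => by
        simpa using h⟩ := by
    ext j
    rw [Finset.mem_filter, Finset.mem_map]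
    rcases j with ⟨l, j⟩ | j
    · constructor
      · rintro ⟨_, h⟩
        have h2 : l = i := h
        subst h2
        exact ⟨j, Finset.mem_univ _, rfl⟩
      · rintro ⟨j', _, hj⟩
        refine ⟨Finset.mem_univ _, ?_⟩
        rw [← hj]
        rfl
    · exact j.elim0
  rw [h1, Finset.card_map, Finset.card_univ, Fintype.card_fin]

theorem sw_pa : Pool.Agent.TH610.RB.Sw (pa (d := d)) (id : Fin b → Fin b) := by
  intro a a' h
  have h' : a = a' := h
  subst h'
  exact ⟨1, fun i => by rw [Equiv.swap_self]; rfl⟩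

/-- balls -/
structure Rdl (Ω : Set (Ee d 0)) : Prop where
  dΩ : Dom Ω
  dep : ∀ x y : Ee d 0, (∀ i, ‖blk x i‖ = ‖blk y i‖) → x ∈ Ω → y ∈ Ω

variable {Ω : Set (Ee d 0)}

/-- normalised density -/
noncomputable def rho (Ω : Set (Ee d 0)) : Ee d 0 → ℝ := Ω.indicator fun _ => (volume Ω).toReal⁻¹

theorem vol_toReal (h : Dom Ω) : 0 < (volume Ω).toReal :=
  ENNReal.toReal_pos h.vol_pos.ne' h.bdd.measure_lt_top.ne

theorem rho_rd (H : Rdl Ω) : Pool.Agent.TH610.RB.RD (pa (d := d)) (id : Fin b → Fin b) (rho Ω) where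
  nonneg x := indicator_nonneg (fun _ _ => by positivity) x
  meas := measurable_const.indicator H.dΩ.op.measurableSet
  logc := by
    intro x y t ht0 ht1
    have hv := vol_toReal H.dΩ
    by_cases hx : x ∈ Ω
    · by_cases hy : y ∈ Ω
      · have hz : (1 - t) • x + t • y ∈ Ω :=
          H.dΩ.conv hx hy (by linarith) ht0.le (by ring)
        unfold rho
        rw [indicator_of_mem hx, indicator_of_mem hy, indicator_of_mem hz,
          ← Real.rpow_add (inv_pos.2 hv)]
        simp
      · unfold rho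
        rw [indicator_of_notMem hy, Real.zero_rpow ht0.ne', mul_zero]
        exact indicator_nonneg (fun _ _ => by positivity) _
    · unfold rho
      rw [indicator_of_notMem hx, Real.zero_rpow (by linarith), zero_mul]
      exact indicator_nonneg (fun _ _ => by positivity) _
  inv := by
    intro a a' haa x y hxy
    have haa' : a = a' := haa
    subst haa'
    have h1 : ∀ c, ‖blk y c‖ = ‖blk x c‖ := by
      intro c
      have := hxy c
      rwa [Equiv.swap_self, norm_pa, Equiv.refl_apply, norm_pa] at this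
    unfold rho
    by_cases hx : x ∈ Ω
    · rw [indicator_of_mem hx, indicator_of_mem (H.dep x y (fun c => (h1 c).symm) hx)]
    · rw [indicator_of_notMem hx, indicator_of_notMem (fun hy => hx (H.dep y x h1 hy))]

theorem mu_rho (H : Rdl Ω) : mu (rho Ω) = (volume Ω)⁻¹ • volume.restrict Ω := by
  unfold mu rho
  have h1 : (fun x => ENNReal.ofReal (Ω.indicator (fun _ => (volume Ω).toReal⁻¹) x)) =
      Ω.indicator fun _ => (volume Ω)⁻¹ := by
    ext x
    by_cases hx : x ∈ Ω
    · rw [indicator_of_mem hx, indicator_of_mem hx, ENNReal.ofReal_inv_of_pos (vol_toReal H.dΩ),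
        ENNReal.ofReal_toReal H.dΩ.bdd.measure_lt_top.ne]
    · rw [indicator_of_notMem hx, indicator_of_notMem hx, ENNReal.ofReal_zero]
  rw [h1, withDensity_indicator H.dΩ.op.measurableSet, withDensity_const]

theorem int_rho (H : Rdl Ω) (F : Ee d 0 → ℝ) : ∫ x, F x ∂(mu (rho Ω)) = EV Ω F := by
  rw [mu_rho H, integral_smul_measure]
  unfold EV
  rw [ENNReal.toReal_inv, smul_eq_mul, div_eq_inv_mul]

/-- **radial compositions** -/
theorem rad (H : Rdl Ω) (hd : ∀ i, 1 ≤ d i) {T : ℝ} (hT0 : 0 ≤ T)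
    (hT : ∑ i, Real.exp (-(T * d i)) ≤ 1) {s : ℝ} (hs0 : 0 < s)
    (hs : ∀ θ : Ee d 0, EV Ω (fun x => ⟪θ, x⟫_ℝ ^ 2) ≤ s * ‖θ‖ ^ 2) {f : Ee d 0 → ℝ}
    (hf : LipschitzWith 1 f) :
    VV Ω f ≤ Pool.Agent.TH610.RB.CC * (1 + T) ^ 2 * s := by
  have hnb : ∀ i : Fin b, Pool.Agent.TH610.RB.nb (id : Fin b → Fin b) d i = d i := by
    intro i
    unfold Pool.Agent.TH610.RB.nb Pool.Agent.TH610.RB.blk
    have : (Finset.univ.filter fun a : Fin b => id a = i) = {i} := by
      ext a; simp
    rw [this, Finset.card_singleton, one_mul]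
  have hSC := Pool.Agent.TH610.RB.core (sw_pa (d := d)) d (fun a => card_pa a)
    (fun β => by rw [hnb]; exact hd β) T hT0 (by simpa only [hnb] using hT)
  have hp : IsProbabilityMeasure (mu (rho Ω)) := by
    refine ⟨?_⟩
    rw [mu_rho H, Measure.smul_apply, Measure.restrict_apply_univ, smul_eq_mul,
      ENNReal.inv_mul_cancel H.dΩ.vol_pos.ne' H.dΩ.bdd.measure_lt_top.ne]
  obtain ⟨R, hR⟩ := H.dΩ.bdd.exists_norm_le
  have hae : ∀ᵐ x ∂(mu (rho Ω)), ‖x‖ ≤ R := by
    rw [mu_rho H]
    exact Measure.ae_smul_measure ((ae_restrict_mem H.dΩ.op.measurableSet).mono fun x hx => hR x hx) _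
  have h1 := var_lip hae (fun f hf hf' => hSC (rho Ω) (rho_rd H).gd
    ⟨R, fun x hx => indicator_of_notMem (fun h => absurd (hR x h) (not_le.2 hx)) _⟩
    hp.measure_univ s hs0 (fun θ => by rw [int_rho H]; exact hs θ) f hf hf') hf
  rw [int_rho H, int_rho H] at h1
  exact h1

end Pool.Agent.Q188.MB
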