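import Pool.Agent.Q188.MB.Ball
import Pool.Agent.Q188.MB.Rad

/-!
# The contribution of the radii
-/

set_option autoImplicit false

namespace Pool.Agent.Q188.MB

open MeasureTheory Set Filter Topology
open scoped ENNReal InnerProductSpace
open Pool.Agent.W695.KH (EV VV)
open Pool.Agent.Q188.NC

variable {b : ℕ} {d : Fin b → ℕ}
variable {B : ∀ i, Set (EuclideanSpace ℝ (Fin (d i)))} {Ω : Set (Ee d 0)}

/-- the mean over the directions, as a function of the radii -/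
noncomputable def mt (B : ∀ i, Set (EuclideanSpace ℝ (Fin (d i)))) (f : Ee d 0 → ℝ) (a : Aa b 0) : ℝ :=
  ∫ Y, f (PhE B (a, Y)) ∂(Measure.pi fun i => bh (B i))

/-- the mean as a function on the companion -/
noncomputable def Gm (B : ∀ i, Set (EuclideanSpace ℝ (Fin (d i)))) (f : Ee d 0 → ℝ) (y : Ee d 0) : ℝ :=
  mt B f (rr B y)

theorem Gm_lip (H : NCm B Ω) {f : Ee d 0 → ℝ} (hf : ContDiff ℝ 1 f)
    (hf' : ∀ x, ‖fderiv ℝ f x‖ ≤ 1) : LipschitzWith 1 (Gm B f) := by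
  refine LipschitzWith.of_dist_le_mul fun y z => ?_
  rw [Real.dist_eq, NNReal.coe_one, one_mul, dist_eq_norm]
  refine abs_le_of_sq_le_sq' ?_ (norm_nonneg _) |> fun h => abs_le.2 h
  refine (mean_dist H hf hf' (rr B y) (rr B z)).trans ?_
  rw [norm_sq_eq]
  refine add_le_add (Finset.sum_le_sum fun i _ => ?_) (by simp)
  have hq := qq_pos (H.pos i) (H.dB i)
  have h1 : ∀ y : Ee d 0, (rr B y).1 i = ‖blk y i‖ / Real.sqrt (qq (B i)) := fun y => gauge_Bq i _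
  have h2 : |‖blk y i‖ - ‖blk z i‖| ≤ ‖blk (y - z) i‖ := abs_norm_sub_norm_le _ _
  rw [h1, h1, ← sub_div, div_pow, Real.sq_sqrt hq.le, div_mul_cancel₀ _ hq.ne', ← sq_abs]
  exact pow_le_pow_left₀ (abs_nonneg _) h2 2

theorem rr_PhE (hd : ∀ i, 1 ≤ d i) (h : ∀ i, Dom (B i)) {a : Aa b 0} (ha : ∀ i, 0 < a.1 i)
    {Y : Yy d} (hY : ∀ i, Y i ≠ 0) : rr B (PhE (Bq B) (a, Y)) = a := by
  refine Prod.ext ?_ (Subsingleton.elim _ _)
  ext i
  show gauge (Bq B i) (blk (PhE (Bq B) (a, Y)) i) = a.1 i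
  have hg := (Bq_dom hd h i).gauge_pos (hY i)
  rw [blk_PhE, (Bq_dom hd h i).gauge_smul]
  show |a.1 i / gauge (Bq B i) (Y i)| * gauge (Bq B i) (Y i) = a.1 i
  rw [abs_div, abs_of_pos hg, abs_of_pos (ha i)]
  field_simp

theorem EV_Gm (H : NCm B Ω) {e : Yy d} (he : ∀ i, gauge (B i) (e i) = 1) {f : Ee d 0 → ℝ}
    (hf : ContDiff ℝ 1 f) (hf' : ∀ x, ‖fderiv ℝ f x‖ ≤ 1) {ψ : ℝ → ℝ} (hψ : Continuous ψ) :
    EV (Oq B Ω e) (fun y => ψ (Gm B f y)) = ∫ a, ψ (mt B f a) ∂(al Ω e) := by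
  have H' := Oq_ncm H he
  obtain ⟨e', he'⟩ := exists_ref H'.dB H'.pos
  have := al_prob H he
  have : ∀ i, IsProbabilityMeasure (bh (Bq B i)) := fun i => (H'.dB i).bh_prob
  rw [rep H' he' (fun y => ψ (Gm B f y)) (hψ.comp (Gm_lip H hf hf').continuous), al_Oq H he he']
  have h1 : ∫ z, ψ (Gm B f (PhE (Bq B) z)) ∂((al Ω e).prod (Measure.pi fun i => bh (Bq B i))) =
      ∫ z : Aa b 0 × Yy d, (fun a => ψ (mt B f a)) z.1
        ∂((al Ω e).prod (Measure.pi fun i => bh (Bq B i))) := by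
    refine integral_congr_ae ?_
    filter_upwards [(Measure.quasiMeasurePreserving_fst (μ := al Ω e)
        (ν := Measure.pi fun i => bh (Bq B i))).ae (al_pos Ω e),
      (Measure.quasiMeasurePreserving_snd (μ := al Ω e)
        (ν := Measure.pi fun i => bh (Bq B i))).ae (ae_all_ne H'.pos H'.dB)] with z hz1 hz2
    show ψ (mt B f (rr B (PhE (Bq B) (z.1, z.2)))) = ψ (mt B f z.1)
    rw [rr_PhE H.pos H.dB hz1 hz2]
  have h2 := integral_fun_fst (μ := al Ω e) (ν := Measure.pi fun i => bh (Bq B i))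
    (fun a => ψ (mt B f a))
  rw [h1]
  refine h2.trans ?_
  simp

/-- contribution of the radii -/
theorem part_two' (H : NCm B Ω) {e : Yy d} (he : ∀ i, gauge (B i) (e i) = 1) {T : ℝ} (hT0 : 0 ≤ T)
    (hT : ∑ i, Real.exp (-(T * d i)) ≤ 1) {s : ℝ} (hs0 : 0 < s)
    (hs : ∀ θ : Ee d 0, EV Ω (fun x => ⟪θ, x⟫_ℝ ^ 2) ≤ s * ‖θ‖ ^ 2) {f : Ee d 0 → ℝ}
    (hf : ContDiff ℝ 1 f) (hf' : ∀ x, ‖fderiv ℝ f x‖ ≤ 1) :
    ∫ a, ((∫ Y, Gg B Ω e f (a, Y) ∂(Measure.pi fun i => bh (B i))) -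
      ∫ a', ∫ Y', Gg B Ω e f (a', Y') ∂(Measure.pi fun i => bh (B i)) ∂(al Ω e)) ^ 2 ∂(al Ω e) ≤
      Pool.Agent.TH610.RB.CC * (1 + T) ^ 2 * s := by
  have := al_prob H he
  have : ∀ i, IsProbabilityMeasure (bh (B i)) := fun i => (H.dB i).bh_prob
  have H' := Oq_ncm H he
  have hR : Rdl (Oq B Ω e) := ⟨H'.dΩ, fun x y h hx => H'.dep x y
    (fun i => by rw [gauge_Bq, gauge_Bq, h i]) (Subsingleton.elim _ _) hx⟩
  have key := rad hR H.pos hT0 hT hs0 (cov_Oq H he hs) (Gm_lip H hf hf')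
  obtain ⟨M, hM⟩ := Gg_bd H he hf hf'
  have hm := Gg_meas H e hf.continuous
  set m : Aa b 0 → ℝ := fun a => ∫ Y, Gg B Ω e f (a, Y) ∂(Measure.pi fun i => bh (B i)) with hmd
  have hmm : Measurable m :=
    (hm.stronglyMeasurable.integral_prod_right' (ν := Measure.pi fun i => bh (B i))).measurable
  have hmM : ∀ a, |m a| ≤ M := by
    intro a
    have := norm_integral_le_of_norm_le_const (μ := Measure.pi fun i => bh (B i))
      (f := fun c => Gg B Ω e f (a, c)) (C := M) (Eventually.of_forall fun c => hM _)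
    rwa [probReal_univ, mul_one, Real.norm_eq_abs] at this
  have i1 : Integrable m (al Ω e) := int_bdd hmm hmM
  have i2 : Integrable (fun a => m a ^ 2) (al Ω e) := int_bdd (hmm.pow_const 2) (M := M ^ 2) fun z => by
    rw [abs_of_nonneg (sq_nonneg _), ← sq_abs]
    exact pow_le_pow_left₀ (abs_nonneg _) (hmM z) 2
  have hae : ∀ᵐ a ∂(al Ω e), m a = mt B f a := by
    filter_upwards [ae_D0 H e] with a ha
    rw [hmd]
    simp only [Gg_of e f ha]
    rfl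
  have e1 : ∫ a, m a ∂(al Ω e) = EV (Oq B Ω e) (Gm B f) := by
    rw [integral_congr_ae hae]
    exact (EV_Gm H he hf hf' (ψ := id) continuous_id).symm
  have e2 : ∫ a, m a ^ 2 ∂(al Ω e) = EV (Oq B Ω e) (fun y => Gm B f y ^ 2) := by
    rw [integral_congr_ae (g := fun a => mt B f a ^ 2) (hae.mono fun a ha => by
      show m a ^ 2 = mt B f a ^ 2
      rw [ha])]
    exact (EV_Gm H he hf hf' (ψ := fun t => t ^ 2) (by fun_prop)).symm
  rw [var_eq i1 i2, sub_self, e1, e2]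
  unfold VV at key
  linarith

end Pool.Agent.Q188.MB
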