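import Pool.Agent.Q188.MB.P1
import Pool.Agent.Q188.MB.P2

/-!
# The KLS inequality for compositions of many bodies
-/

set_option autoImplicit false

namespace Pool.Agent.Q188.MB

open MeasureTheory Set Filter Topology
open scoped ENNReal InnerProductSpace
open Pool.Agent.W695.KH (EV VV)
open Pool.Agent.Q188.NC

variable {b : ℕ} {d : Fin b → ℕ}
variable {B : ∀ i, Set (EuclideanSpace ℝ (Fin (d i)))} {Ω : Set (Ee d 0)}

/-- the absolute constant -/
noncomputable def KC : ℝ := 100 + Pool.Agent.TH610.RB.CC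

theorem KC_pos : 0 < KC := by
  unfold KC
  have := Pool.Agent.TH610.RB.CC_pos
  linarith

/-- **compositions of many bodies** -/
theorem kls_many (hb : 0 < b) (H : NCm B Ω) {K : ℝ} (hK0 : 0 ≤ K) (hK : ∀ i, PI K (B i)) {T : ℝ}
    (hT0 : 0 ≤ T) (hT : ∑ i, Real.exp (-(T * d i)) ≤ 1) :
    KLS (KC * (1 + K) * (1 + T) ^ 2) Ω := by
  intro s hs f hf hf'
  obtain ⟨e, he⟩ := exists_ref H.dB H.pos
  have := al_prob H he
  have : ∀ i, IsProbabilityMeasure (bh (B i)) := fun i => (H.dB i).bh_prob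
  obtain ⟨M, hM⟩ := Gg_bd H he hf hf'
  have hs0 : 0 < s := by
    have i : Fin b := ⟨0, hb⟩
    have h1 := cov_q H he hs i
    have h2 := rho_pos H he i
    have h3 := qq_pos (H.pos i) (H.dB i)
    have h4 : 0 < (d i : ℝ) * s := (mul_pos h3 h2).trans_le h1
    exact (pos_iff_pos_of_mul_pos h4).1 (by exact_mod_cast H.pos i)
  rw [VV_eq H he hf hf', var_prod (al Ω e) (Measure.pi fun i => bh (B i)) (Gg B Ω e f)
    (Gg_meas H e hf.continuous) M hM]
  have h1 := part_one' H he hK0 hK hT0 hT hs0 hs hf hf'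
  have h2 := part_two' H he hT0 hT hs0 hs hf hf'
  have hC := Pool.Agent.TH610.RB.CC_pos
  refine (add_le_add h1 h2).trans ?_
  unfold KC
  have h3 : (5 + 2 * T) ^ 2 ≤ 25 * (1 + T) ^ 2 := by nlinarith
  calc K * (4 * (5 + 2 * T) ^ 2 * s) + Pool.Agent.TH610.RB.CC * (1 + T) ^ 2 * s
      ≤ K * (4 * (25 * (1 + T) ^ 2) * s) + Pool.Agent.TH610.RB.CC * (1 + T) ^ 2 * s := by gcongr
    _ = (100 * K + Pool.Agent.TH610.RB.CC) * ((1 + T) ^ 2 * s) := by ring
    _ ≤ ((100 + Pool.Agent.TH610.RB.CC) * (1 + K)) * ((1 + T) ^ 2 * s) := by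
        refine mul_le_mul_of_nonneg_right ?_ (by positivity)
        nlinarith [mul_nonneg hC.le hK0]
    _ = _ := by ring

end Pool.Agent.Q188.MB
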