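import Pool.Agent.Q188.MB.Upd

/-!
# The maximum of the lengths of the sections
-/

set_option autoImplicit false

namespace Pool.Agent.Q188.MB

open MeasureTheory Set Filter Topology
open scoped ENNReal InnerProductSpace
open Pool.Agent.W695.KH (EV VV)
open Pool.Agent.Q188.NC

variable {b : ℕ} {d : Fin b → ℕ}
variable {B : ∀ i, Set (EuclideanSpace ℝ (Fin (d i)))} {Ω : Set (Ee d 0)}

theorem int_pow' {m : ℕ} (hm : 1 ≤ m) {L : ℝ} (hL : 0 ≤ L) :
    ∫⁻ r in Ioo (0 : ℝ) L, ENNReal.ofReal (m * r ^ (m - 1)) = ENNReal.ofReal (L ^ m) := by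
  rw [← ofReal_integral_eq_lintegral_ofReal]
  · congr 1
    rw [← integral_Ioc_eq_integral_Ioo, ← intervalIntegral.integral_of_le hL,
      intervalIntegral.integral_const_mul, integral_pow]
    have hc : ((m - 1 : ℕ) : ℝ) + 1 = m := by
      rw [Nat.cast_sub hm]; simp
    have h0 : (m : ℝ) ≠ 0 := by positivity
    have h1 : m - 1 + 1 = m := Nat.sub_add_cancel hm
    rw [hc, h1, zero_pow (by omega), sub_zero]
    field_simp
  · exact (Continuous.integrableOn_Icc (by fun_prop)).mono_set Ioo_subset_Icc_self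
  · refine (ae_restrict_mem measurableSet_Ioo).mono fun r hr => ?_
    have := hr.1
    simp only [Pi.zero_apply]
    positivity

/-- moments of a radius -/
noncomputable def mm (Ω : Set (Ee d 0)) (e : Yy d) (i : Fin b) (p : ℕ) : ℝ := ∫ a, a.1 i ^ p ∂(al Ω e)

theorem mm_int (H : NCm B Ω) {e : Yy d} (he : ∀ i, gauge (B i) (e i) = 1) (i : Fin b) (p : ℕ) :
    Integrable (fun a : Aa b 0 => a.1 i ^ p) (al Ω e) :=
  al_int H he (φ := fun a : Aa b 0 => a.1 i ^ p) (((continuous_apply i).comp continuous_fst).pow p)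

theorem mm_pos (H : NCm B Ω) {e : Yy d} (he : ∀ i, gauge (B i) (e i) = 1) (i : Fin b) (p : ℕ) :
    0 < mm Ω e i p := by
  have := al_prob H he
  have hnn : ∀ᵐ a ∂(al Ω e), 0 ≤ a.1 i ^ p := (al_pos Ω e).mono fun a ha => pow_nonneg (ha i).le _
  have hnn' : 0 ≤ mm Ω e i p := integral_nonneg_of_ae hnn
  refine lt_of_le_of_ne hnn' fun h0 => ?_
  have h1 := (integral_eq_zero_iff_of_nonneg_ae hnn (mm_int H he i p)).1 h0.symm
  have h2 : ∀ᵐ _a ∂(al Ω e), False := by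
    filter_upwards [h1, al_pos Ω e] with a ha hp
    have h3 : a.1 i ^ p = 0 := ha
    exact (pow_pos (hp i) p).ne' h3
  rw [ae_iff] at h2
  simp at h2

theorem mm_zero (H : NCm B Ω) {e : Yy d} (he : ∀ i, gauge (B i) (e i) = 1) (i : Fin b) :
    mm Ω e i 0 = 1 := by
  have := al_prob H he
  unfold mm
  simp

/-- log-concavity of the normalised moments -/
theorem mm_log (H : NCm B Ω) {e : Yy d} (he : ∀ i, gauge (B i) (e i) = 1) (i : Fin b) (p : ℕ) :
    ((d i : ℝ) + p) * (mm Ω e i (p + 2) * mm Ω e i p) ≤ (d i + p + 1) * mm Ω e i (p + 1) ^ 2 := by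
  have hW := dn_wg H he i
  set ℓ : Aa b 0 →L[ℝ] ℝ := (ContinuousLinearMap.proj i).comp (ContinuousLinearMap.fst ℝ _ _) with hℓ
  have hl : ∀ a, ℓ a = a.1 i := fun a => rfl
  have hH : (volume : Measure (Aa b 0)).IsAddHaarMeasure := by
    exact Measure.prod.instIsAddHaarMeasure (volume : Measure (Fin b → ℝ))
      (volume : Measure (Fin 0 → ℝ))
  have hd := H.pos i
  have hm := mom (volume : Measure (Aa b 0)) hW ℓ (fun a ha => by
    by_contra hcon
    apply ha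
    unfold dn
    exact indicator_of_notMem (fun h => hcon (h.2 i)) _) (d i + p) (by omega)
  simp only [hl] at hm
  have e0 : ∀ q : ℕ, ∫ a : Aa b 0, a.1 i ^ (d i - 1 + q) * dn Ω e i a =
      ∫ a, a.1 i ^ q ∂(al0 Ω e) := by
    intro q
    rw [int_al0 H e]
    congr 1
    ext a
    rw [dens_dn Ω e i a, pow_add]
    ring
  have e1 : d i + p + 1 = d i - 1 + (p + 2) := by omega
  have e2 : d i + p - 1 = d i - 1 + p := by omega
  have e6 : d i + p = d i - 1 + (p + 1) := by omega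
  have e3 : ∫ a : Aa b 0, a.1 i ^ (d i + p) * dn Ω e i a = ∫ a, a.1 i ^ (p + 1) ∂(al0 Ω e) := by
    rw [e6, e0]
  have e4 : ∫ a : Aa b 0, a.1 i ^ (d i + p + 1) * dn Ω e i a = ∫ a, a.1 i ^ (p + 2) ∂(al0 Ω e) := by
    rw [e1, e0]
  have e5 : ∫ a : Aa b 0, a.1 i ^ (d i + p - 1) * dn Ω e i a = ∫ a, a.1 i ^ p ∂(al0 Ω e) := by
    rw [e2, e0]
  rw [e3, e4, e5] at hm
  unfold mm
  rw [int_al, int_al, int_al]
  set m := (al0 Ω e univ).toReal with hmd
  have hm0 : 0 < m := ENNReal.toReal_pos (al0_ne H he) (al0_top H he)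
  set X := ∫ a : Aa b 0, a.1 i ^ (p + 2) ∂(al0 Ω e)
  set Y := ∫ a : Aa b 0, a.1 i ^ (p + 1) ∂(al0 Ω e)
  set Z := ∫ a : Aa b 0, a.1 i ^ p ∂(al0 Ω e)
  push_cast at hm
  calc ((d i : ℝ) + p) * (m⁻¹ * X * (m⁻¹ * Z)) = ((d i + p) * X * Z) * (m⁻¹) ^ 2 := by ring
    _ ≤ ((d i + p + 1) * Y ^ 2) * (m⁻¹) ^ 2 := mul_le_mul_of_nonneg_right hm (by positivity)
    _ = (d i + p + 1) * (m⁻¹ * Y) ^ 2 := by ring

theorem mm_step (H : NCm B Ω) {e : Yy d} (he : ∀ i, gauge (B i) (e i) = 1) (i : Fin b) :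
    ∀ p : ℕ, mm Ω e i (p + 1) ≤ (1 + p / d i) * mm Ω e i 1 * mm Ω e i p := by
  have hd : (0 : ℝ) < d i := by exact_mod_cast H.pos i
  intro p
  induction p with
  | zero =>
    rw [mm_zero H he]
    simp
  | succ p ih =>
    have h1 := mm_log H he i p
    have h2 := mm_pos H he i p
    have h3 := mm_pos H he i (p + 1)
    have h4 := mm_pos H he i 1
    have h5 : ((d i : ℝ) + p) * (mm Ω e i (p + 2) * mm Ω e i p) ≤
        (d i + p + 1) * (mm Ω e i (p + 1) * ((1 + p / d i) * mm Ω e i 1 * mm Ω e i p)) := by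
      refine h1.trans ?_
      rw [sq]
      gcongr
    have h6 : (0 : ℝ) < d i + p := by positivity
    have h7 : ((d i : ℝ) + p) * mm Ω e i p * mm Ω e i (p + 2) ≤
        ((d i : ℝ) + p) * mm Ω e i p * ((1 + ((p : ℝ) + 1) / d i) * mm Ω e i 1 * mm Ω e i (p + 1)) := by
      calc _ = ((d i : ℝ) + p) * (mm Ω e i (p + 2) * mm Ω e i p) := by ring
        _ ≤ _ := h5
        _ = _ := by
          field_simp
          ring
    have h8 := le_of_mul_le_mul_left h7 (by positivity)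
    push_cast
    exact h8

theorem mm_pow (H : NCm B Ω) {e : Yy d} (he : ∀ i, gauge (B i) (e i) = 1) (i : Fin b) :
    ∀ p : ℕ, mm Ω e i (p + 1) ≤ mm Ω e i 1 ^ (p + 1) * (1 + ((p : ℝ) + 1) / d i) ^ p := by
  have hd : (0 : ℝ) < d i := by exact_mod_cast H.pos i
  have h4 := mm_pos H he i 1
  intro p
  induction p with
  | zero => simp
  | succ p ih =>
    refine (mm_step H he i (p + 1)).trans ?_
    push_cast
    calc (1 + ((p : ℝ) + 1) / d i) * mm Ω e i 1 * mm Ω e i (p + 1)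
        ≤ (1 + ((p : ℝ) + 1) / d i) * mm Ω e i 1 *
          (mm Ω e i 1 ^ (p + 1) * (1 + ((p : ℝ) + 1) / d i) ^ p) := by gcongr
      _ = mm Ω e i 1 ^ (p + 1 + 1) * (1 + ((p : ℝ) + 1) / d i) ^ (p + 1) := by ring
      _ ≤ mm Ω e i 1 ^ (p + 1 + 1) * (1 + ((p : ℝ) + 1 + 1) / d i) ^ (p + 1) := by
          gcongr
          linarith

theorem mm_two (H : NCm B Ω) {e : Yy d} (he : ∀ i, gauge (B i) (e i) = 1) (i : Fin b) :
    mm Ω e i 1 ^ 2 ≤ mm Ω e i 2 := by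
  have := al_prob H he
  have h1 := var_eq (μ := al Ω e) (g := fun a => a.1 i ^ 1) (mm_int H he i 1)
    (by simpa using mm_int H he i 2) (mm Ω e i 1)
  have h2 : 0 ≤ ∫ a : Aa b 0, (a.1 i ^ 1 - mm Ω e i 1) ^ 2 ∂(al Ω e) :=
    integral_nonneg fun a => sq_nonneg _
  rw [h1] at h2
  have h3 : ∫ a : Aa b 0, a.1 i ^ 1 ∂(al Ω e) = mm Ω e i 1 := rfl
  have h4 : ∫ a : Aa b 0, (a.1 i ^ 1) ^ 2 ∂(al Ω e) = mm Ω e i 2 := by
    unfold mm
    simp
  rw [h3, h4, sub_self] at h2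
  linarith

/-- moments of the length of the section -/
theorem LL_mom (H : NCm B Ω) {e : Yy d} (he : ∀ i, gauge (B i) (e i) = 1) (i : Fin b) {q : ℕ}
    (hq : 1 ≤ q) :
    ∫⁻ a, ENNReal.ofReal (LL Ω e i a ^ (2 * q)) ∂(al Ω e) ≤
      ENNReal.ofReal (mm Ω e i 2 ^ q * (1 + 2 * q / d i) ^ (2 * q)) := by
  have hd : (0 : ℝ) < d i := by exact_mod_cast H.pos i
  have hLm := LL_meas H e i
  have h1 : ∫⁻ a, ENNReal.ofReal (LL Ω e i a ^ (2 * q)) ∂(al Ω e) ≤
      ∫⁻ a, ENNReal.ofReal ((1 + 2 * q / d i) * a.1 i ^ (2 * q)) ∂(al Ω e) := by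
    refine al0_upd_le H he i (by fun_prop) (by fun_prop) fun a => le_of_eq ?_
    simp only [LL_update, Function.update_self]
    have hL := LL_nn Ω e i a
    rw [lintegral_mul_const _ (by fun_prop), int_pow' (H.pos i) hL, ← ENNReal.ofReal_mul
      (by positivity), ← pow_add, ← int_pow' (m := d i + 2 * q) (by omega) hL]
    refine setLIntegral_congr_fun measurableSet_Ioo fun r hr => ?_
    have hr0 := hr.1
    rw [← ENNReal.ofReal_mul (by positivity)]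
    congr 1
    have h2 : r ^ (d i + 2 * q - 1) = r ^ (d i - 1) * r ^ (2 * q) := by
      rw [← pow_add]
      congr 1
      have := H.pos i
      omega
    rw [h2]
    push_cast
    field_simp
  refine h1.trans ?_
  have hnn : ∀ᵐ a ∂(al Ω e), 0 ≤ (1 + 2 * (q : ℝ) / d i) * a.1 i ^ (2 * q) :=
    (al_pos Ω e).mono fun a ha => by
      have := ha i
      positivity
  rw [← ofReal_integral_eq_lintegral_ofReal ((mm_int H he i (2 * q)).const_mul _) hnn,
    integral_const_mul]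
  refine ENNReal.ofReal_le_ofReal ?_
  obtain ⟨p, hp⟩ : ∃ p, 2 * q = p + 1 := ⟨2 * q - 1, by omega⟩
  have h3 := mm_pow H he i p
  rw [← hp] at h3
  have h4 := mm_two H he i
  have h5 := mm_pos H he i 1
  have h6 : mm Ω e i 1 ^ (2 * q) ≤ mm Ω e i 2 ^ q := by
    rw [pow_mul]
    exact pow_le_pow_left₀ (by positivity) h4 q
  have hcast : (p : ℝ) + 1 = 2 * q := by
    have : ((p + 1 : ℕ) : ℝ) = ((2 * q : ℕ) : ℝ) := by rw [hp]
    push_cast at this
    exact this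
  rw [hcast] at h3
  calc (1 + 2 * q / d i) * ∫ a, a.1 i ^ (2 * q) ∂(al Ω e)
      ≤ (1 + 2 * q / d i) * (mm Ω e i 1 ^ (2 * q) * (1 + 2 * q / d i) ^ p) :=
        mul_le_mul_of_nonneg_left h3 (by positivity)
    _ = mm Ω e i 1 ^ (2 * q) * (1 + 2 * q / d i) ^ (2 * q) := by
        have : (1 + 2 * (q : ℝ) / d i) ^ (2 * q) = (1 + 2 * (q : ℝ) / d i) ^ (p + 1) := by rw [← hp]
        rw [this, pow_succ]
        ring
    _ ≤ mm Ω e i 2 ^ q * (1 + 2 * q / d i) ^ (2 * q) := by gcongr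

/-- bound for the maximum -/
noncomputable def Mxx (Ω : Set (Ee d 0)) (e : Yy d) (s T : ℝ) (a : Aa b 0) : ℝ :=
  Real.exp 1 * s * (5 + 2 * T) ^ 2 + ∑ j, (s / mm Ω e j 2 * LL Ω e j a ^ 2) ^ (⌈T * d j⌉₊ + 1) /
    (Real.exp 1 * s * (5 + 2 * T) ^ 2) ^ ⌈T * d j⌉₊

theorem Mxx_meas (H : NCm B Ω) (e : Yy d) (s T : ℝ) : Measurable (Mxx Ω e s T) := by
  have hLm := fun i => LL_meas H e i
  unfold Mxx
  refine measurable_const.add (Finset.measurable_sum _ fun j _ => ?_)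
  have := hLm j
  fun_prop

theorem Mxx_le (H : NCm B Ω) {e : Yy d} (he : ∀ i, gauge (B i) (e i) = 1) {s T : ℝ} (hs : 0 < s)
    (hT : 0 ≤ T) (i : Fin b) (a : Aa b 0) : s / mm Ω e i 2 * LL Ω e i a ^ 2 ≤ Mxx Ω e s T a := by
  unfold Mxx
  set A := Real.exp 1 * s * (5 + 2 * T) ^ 2 with hA
  have hA0 : 0 < A := by rw [hA]; positivity
  have hu : ∀ j, 0 ≤ s / mm Ω e j 2 * LL Ω e j a ^ 2 := fun j => by
    have := mm_pos H he j 2
    positivity
  have hterm : ∀ j, 0 ≤ (s / mm Ω e j 2 * LL Ω e j a ^ 2) ^ (⌈T * d j⌉₊ + 1) / A ^ ⌈T * d j⌉₊ :=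
    fun j => div_nonneg (pow_nonneg (hu j) _) (pow_nonneg hA0.le _)
  have hsum := Finset.single_le_sum (f := fun j => (s / mm Ω e j 2 * LL Ω e j a ^ 2) ^
    (⌈T * d j⌉₊ + 1) / A ^ ⌈T * d j⌉₊) (fun j _ => hterm j) (Finset.mem_univ i)
  have hnn : 0 ≤ ∑ j, (s / mm Ω e j 2 * LL Ω e j a ^ 2) ^ (⌈T * d j⌉₊ + 1) / A ^ ⌈T * d j⌉₊ :=
    Finset.sum_nonneg fun j _ => hterm j
  by_cases h : s / mm Ω e i 2 * LL Ω e i a ^ 2 ≤ A
  · linarith
  · push Not at h
    have h1 : s / mm Ω e i 2 * LL Ω e i a ^ 2 ≤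
        (s / mm Ω e i 2 * LL Ω e i a ^ 2) ^ (⌈T * d i⌉₊ + 1) / A ^ ⌈T * d i⌉₊ := by
      rw [le_div_iff₀ (pow_pos hA0 _), pow_succ, mul_comm]
      exact mul_le_mul_of_nonneg_right (pow_le_pow_left₀ hA0.le h.le _) (hu i)
    linarith

theorem Mxx_int (H : NCm B Ω) {e : Yy d} (he : ∀ i, gauge (B i) (e i) = 1) {s T : ℝ} (hs : 0 < s)
    (hT : 0 ≤ T) (hT1 : ∑ i, Real.exp (-(T * d i)) ≤ 1) :
    ∫⁻ a, ENNReal.ofReal (Mxx Ω e s T a) ∂(al Ω e) ≤ ENNReal.ofReal (4 * (5 + 2 * T) ^ 2 * s) := by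
  have hp := al_prob H he
  have hLm := fun i => LL_meas H e i
  set A := Real.exp 1 * s * (5 + 2 * T) ^ 2 with hA
  have hA0 : 0 < A := by rw [hA]; positivity
  have hu : ∀ j a, 0 ≤ s / mm Ω e j 2 * LL Ω e j a ^ 2 := fun j a => by
    have := mm_pos H he j 2
    positivity
  have hterm : ∀ j a, 0 ≤ (s / mm Ω e j 2 * LL Ω e j a ^ 2) ^ (⌈T * d j⌉₊ + 1) /
      A ^ ⌈T * d j⌉₊ := fun j a => div_nonneg (pow_nonneg (hu j a) _) (pow_nonneg hA0.le _)
  have h1 : ∀ a, ENNReal.ofReal (Mxx Ω e s T a) = ENNReal.ofReal A +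
      ∑ j, ENNReal.ofReal ((s / mm Ω e j 2 * LL Ω e j a ^ 2) ^ (⌈T * d j⌉₊ + 1) /
        A ^ ⌈T * d j⌉₊) := by
    intro a
    unfold Mxx
    rw [← hA, ENNReal.ofReal_add hA0.le (Finset.sum_nonneg fun j _ => hterm j a),
      ENNReal.ofReal_sum_of_nonneg fun j _ => hterm j a]
  simp only [h1]
  rw [lintegral_add_left measurable_const, lintegral_const, measure_univ, mul_one,
    lintegral_finsetSum _ fun j _ => by
      have := hLm j
      fun_prop]
  have h2 : ∀ j, ∫⁻ a, ENNReal.ofReal ((s / mm Ω e j 2 * LL Ω e j a ^ 2) ^ (⌈T * d j⌉₊ + 1) /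
      A ^ ⌈T * d j⌉₊) ∂(al Ω e) ≤ ENNReal.ofReal (s * (5 + 2 * T) ^ 2 * Real.exp (-(T * d j))) := by
    intro j
    have hd : (1 : ℝ) ≤ d j := by exact_mod_cast H.pos j
    have hM := mm_pos H he j 2
    set q := ⌈T * d j⌉₊ + 1 with hq
    have hL := hLm j
    have e1 : ∀ a, ENNReal.ofReal ((s / mm Ω e j 2 * LL Ω e j a ^ 2) ^ q / A ^ ⌈T * d j⌉₊) =
        ENNReal.ofReal ((s / mm Ω e j 2) ^ q / A ^ ⌈T * d j⌉₊) *
          ENNReal.ofReal (LL Ω e j a ^ (2 * q)) := by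
      intro a
      rw [← ENNReal.ofReal_mul (by positivity)]
      congr 1
      rw [mul_pow, ← pow_mul]
      ring
    simp only [e1]
    rw [lintegral_const_mul _ (by fun_prop)]
    refine (mul_le_mul_right (LL_mom H he j (q := q) (by omega)) _).trans ?_
    rw [← ENNReal.ofReal_mul (by positivity)]
    refine ENNReal.ofReal_le_ofReal ?_
    have hc1 : (q : ℝ) ≤ T * d j + 2 := by
      have := Nat.ceil_lt_add_one (show 0 ≤ T * d j by positivity)
      rw [hq]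
      push_cast
      linarith
    have hc2 : 1 + 2 * (q : ℝ) / d j ≤ 5 + 2 * T := by
      have : 2 * (q : ℝ) / d j ≤ 4 + 2 * T := by
        rw [div_le_iff₀ (by linarith)]
        nlinarith
      linarith
    have hc3 : Real.exp (-(⌈T * d j⌉₊ : ℝ)) ≤ Real.exp (-(T * d j)) :=
      Real.exp_le_exp.2 (neg_le_neg (Nat.le_ceil _))
    have hE : A ^ ⌈T * d j⌉₊ = Real.exp (⌈T * d j⌉₊ : ℝ) * (s * (5 + 2 * T) ^ 2) ^ ⌈T * d j⌉₊ := by
      rw [hA, mul_assoc, mul_pow, ← Real.exp_nat_mul, mul_one]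
    calc (s / mm Ω e j 2) ^ q / A ^ ⌈T * d j⌉₊ *
          (mm Ω e j 2 ^ q * (1 + 2 * q / d j) ^ (2 * q))
        = s ^ q * (1 + 2 * q / d j) ^ (2 * q) / A ^ ⌈T * d j⌉₊ := by
          rw [div_pow]
          field_simp
      _ ≤ s ^ q * (5 + 2 * T) ^ (2 * q) / A ^ ⌈T * d j⌉₊ := by gcongr
      _ = s * (5 + 2 * T) ^ 2 * Real.exp (-(⌈T * d j⌉₊ : ℝ)) := by
          rw [hE, Real.exp_neg]
          have h3 : s ^ q * (5 + 2 * T) ^ (2 * q) =
              (s * (5 + 2 * T) ^ 2) ^ ⌈T * d j⌉₊ * (s * (5 + 2 * T) ^ 2) := by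
            rw [← pow_succ, ← hq, mul_pow, ← pow_mul]
          rw [h3]
          field_simp
      _ ≤ s * (5 + 2 * T) ^ 2 * Real.exp (-(T * d j)) := by gcongr
  calc _ ≤ ENNReal.ofReal A + ∑ j, ENNReal.ofReal (s * (5 + 2 * T) ^ 2 * Real.exp (-(T * d j))) := by
        gcongr with j _
        exact h2 j
    _ = ENNReal.ofReal (A + ∑ j, s * (5 + 2 * T) ^ 2 * Real.exp (-(T * d j))) := by
        rw [ENNReal.ofReal_add hA0.le (Finset.sum_nonneg fun j _ => by positivity),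
          ENNReal.ofReal_sum_of_nonneg fun j _ => by positivity]
    _ ≤ _ := by
        refine ENNReal.ofReal_le_ofReal ?_
        rw [← Finset.mul_sum]
        have he1 : Real.exp 1 ≤ 3 := by
          have := Real.exp_one_lt_d9
          linarith
        have h5 : 0 < s * (5 + 2 * T) ^ 2 := by positivity
        have h6 : s * (5 + 2 * T) ^ 2 * ∑ i, Real.exp (-(T * d i)) ≤ s * (5 + 2 * T) ^ 2 * 1 := by
          gcongr
        have h7 : A ≤ 3 * (s * (5 + 2 * T) ^ 2) := by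
          rw [hA, mul_assoc]
          gcongr
        linarith

end Pool.Agent.Q188.MB
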