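import Pool.Agent.Q188.NC.Kls

/-!
# One block: variances over the directions on average over the radius
-/

set_option autoImplicit false

namespace Pool.Agent.Q188.MB

open MeasureTheory Set Filter Topology
open scoped ENNReal InnerProductSpace
open Pool.Agent.W695.KH (EV VV)
open Pool.Agent.Q188.NC

variable {n : ℕ} {B : Set (EuclideanSpace ℝ (Fin n))}

/-- polar coordinates for the uniform measure -/
theorem bh_polar (hn : 1 ≤ n) (h : Dom B) (G : EuclideanSpace ℝ (Fin n) → ℝ≥0∞)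
    (hG : Measurable G) :
    ∫⁻ x, G x ∂(bh B) = ∫⁻ r in Ioo (0 : ℝ) 1, ENNReal.ofReal (n * r ^ (n - 1)) *
      ∫⁻ y, G ((r / gauge B y) • y) ∂(bh B) := by
  have hgm : Measurable (gauge B) := h.cont.measurable
  have key : ∫⁻ x in B, G x = ∫⁻ r in Ioo (0 : ℝ) 1, ENNReal.ofReal (n * r ^ (n - 1)) *
      ∫⁻ y in B, G ((r / gauge B y) • y) := by
    have hne : Nonempty (Fin n) := ⟨⟨0, hn⟩⟩
    have hae : ∀ᵐ y ∂(volume.restrict B : Measure (EuclideanSpace ℝ (Fin n))), y ≠ 0 := by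
      refine ae_restrict_of_ae ?_
      rw [ae_iff]
      simp
    rw [← lintegral_indicator h.op.measurableSet,
      polar hn h _ (Measurable.indicator hG h.op.measurableSet),
      ← lintegral_indicator measurableSet_Ioo]
    congr 1
    ext r
    by_cases hr0 : r ∈ Ioi (0 : ℝ)
    · have hr0' : (0 : ℝ) < r := hr0
      have hg : ∀ y : EuclideanSpace ℝ (Fin n), y ≠ 0 → gauge B ((r / gauge B y) • y) = r := by
        intro y hy
        have hN := h.gauge_pos hy
        rw [h.gauge_smul, abs_of_pos (div_pos hr0' hN), div_mul_cancel₀ _ hN.ne']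
      by_cases hr1 : r < 1
      · rw [indicator_of_mem (show r ∈ Ioo (0 : ℝ) 1 from ⟨hr0, hr1⟩)]
        unfold wt
        rw [indicator_of_mem hr0]
        congr 1
        refine lintegral_congr_ae (hae.mono fun y hy => ?_)
        exact indicator_of_mem ((h.mem_iff _).2 (by rw [hg y hy]; exact hr1)) _
      · rw [indicator_of_notMem (show r ∉ Ioo (0 : ℝ) 1 from fun h' => hr1 h'.2)]
        have e1 : ∫⁻ y in B, B.indicator G ((r / gauge B y) • y) = 0 := by
          rw [lintegral_congr_ae (g := fun _ => 0) (hae.mono fun y hy => ?_), lintegral_zero]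
          exact indicator_of_notMem (fun h' => hr1 (by
            have := (h.mem_iff _).1 h'
            rwa [hg y hy] at this)) _
        rw [e1, mul_zero]
    · rw [indicator_of_notMem (show r ∉ Ioo (0 : ℝ) 1 from fun h' => hr0 h'.1)]
      unfold wt
      rw [indicator_of_notMem hr0, zero_mul]
  unfold bh
  rw [lintegral_smul_measure, key, smul_eq_mul, ← lintegral_const_mul _ (by
    refine Measurable.mul (by fun_prop) ?_
    refine Measurable.lintegral_prod_right' (f := fun z : ℝ × EuclideanSpace ℝ (Fin n) =>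
      G ((z.1 / gauge B z.2) • z.2)) ?_
    fun_prop)]
  congr 1
  ext r
  rw [lintegral_smul_measure, smul_eq_mul]
  ring

/-- polar coordinates at another scale -/
theorem bh_scale (hn : 1 ≤ n) (h : Dom B) (G : EuclideanSpace ℝ (Fin n) → ℝ≥0∞)
    (hG : Measurable G) {L : ℝ} (hL : 0 < L) :
    ENNReal.ofReal (L ^ n) * ∫⁻ x, G (L • x) ∂(bh B) =
      ∫⁻ r in Ioo (0 : ℝ) L, ENNReal.ofReal (n * r ^ (n - 1)) *
        ∫⁻ y, G ((r / gauge B y) • y) ∂(bh B) := by
  have hgm : Measurable (gauge B) := h.cont.measurable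
  have hp := h.bh_prob
  set hh : ℝ → ℝ≥0∞ := fun r => ∫⁻ y, G ((r / gauge B y) • y) ∂(bh B) with hhd
  have hhm : Measurable hh := by
    refine Measurable.lintegral_prod_right' (f := fun z : ℝ × EuclideanSpace ℝ (Fin n) =>
      G ((z.1 / gauge B z.2) • z.2)) ?_
    fun_prop
  have h1 := bh_polar hn h (fun x => G (L • x)) (by fun_prop)
  have h2 : ∀ r : ℝ, ∫⁻ y, G (L • (r / gauge B y) • y) ∂(bh B) = hh (L * r) := by
    intro r
    rw [hhd]
    simp only
    congr 1
    ext y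
    rw [smul_smul, mul_div_assoc]
  simp only [h2] at h1
  have h3 := lint_smul (volume : Measure ℝ) hL
    (fun r => (Ioo (0 : ℝ) L).indicator (fun r => ENNReal.ofReal (n * r ^ (n - 1)) * hh r) r)
    (Measurable.indicator (by fun_prop) measurableSet_Ioo)
  simp only [smul_eq_mul, Module.finrank_self, pow_one] at h3
  rw [lintegral_indicator measurableSet_Ioo] at h3
  have h4 : ∀ r : ℝ, (Ioo (0 : ℝ) L).indicator (fun r => ENNReal.ofReal (n * r ^ (n - 1)) * hh r)
      (L * r) = ENNReal.ofReal (L ^ (n - 1)) * (Ioo (0 : ℝ) 1).indicator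
        (fun r => ENNReal.ofReal (n * r ^ (n - 1)) * hh (L * r)) r := by
    intro r
    by_cases hr : r ∈ Ioo (0 : ℝ) 1
    · have hr' : L * r ∈ Ioo (0 : ℝ) L := ⟨mul_pos hL hr.1, (mul_lt_iff_lt_one_right hL).2 hr.2⟩
      rw [indicator_of_mem hr, indicator_of_mem hr', ← mul_assoc, ← ENNReal.ofReal_mul
        (by positivity)]
      congr 2
      rw [mul_pow]
      ring
    · have hr' : L * r ∉ Ioo (0 : ℝ) L := fun h' => hr
        ⟨(pos_iff_pos_of_mul_pos h'.1).1 hL, (mul_lt_iff_lt_one_right hL).1 h'.2⟩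
      rw [indicator_of_notMem hr, indicator_of_notMem hr', mul_zero]
  simp only [h4] at h3
  rw [lintegral_const_mul _ (Measurable.indicator (by fun_prop) measurableSet_Ioo),
    lintegral_indicator measurableSet_Ioo, ← h1] at h3
  have h5 : ENNReal.ofReal (L ^ n) = ENNReal.ofReal L * ENNReal.ofReal (L ^ (n - 1)) := by
    rw [← ENNReal.ofReal_mul hL.le, ← pow_succ', Nat.sub_add_cancel hn]
  rw [h5, mul_assoc, h3, ← mul_assoc, ← ENNReal.ofReal_mul hL.le, mul_inv_cancel₀ hL.ne',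
    ENNReal.ofReal_one, one_mul]

/-- **one block** -/
theorem one_block (hn : 1 ≤ n) (h : Dom B) {P : ℝ} (hP0 : 0 ≤ P)
    (hP : ∀ f : EuclideanSpace ℝ (Fin n) → ℝ, ContDiff ℝ 1 f →
      VV B f ≤ P * EV B (fun x => ‖fderiv ℝ f x‖ ^ 2))
    {F : EuclideanSpace ℝ (Fin n) → ℝ} (hF : ContDiff ℝ 1 F) {L : ℝ} (hL : 0 < L) :
    ∫⁻ r in Ioo (0 : ℝ) L, ENNReal.ofReal (n * r ^ (n - 1)) * ENNReal.ofReal
        (∫ y, (F ((r / gauge B y) • y) - ∫ y', F ((r / gauge B y') • y') ∂(bh B)) ^ 2 ∂(bh B)) ≤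
      ENNReal.ofReal (P * L ^ 2) * ∫⁻ r in Ioo (0 : ℝ) L, ENNReal.ofReal (n * r ^ (n - 1)) *
        ∫⁻ y, ENNReal.ofReal (‖fderiv ℝ F ((r / gauge B y) • y)‖ ^ 2) ∂(bh B) := by
  have hgm : Measurable (gauge B) := h.cont.measurable
  have hp := h.bh_prob
  obtain ⟨C, hC0, hC⟩ := h.norm_le
  obtain ⟨ρ, hρ⟩ := h.bdd.exists_norm_le
  have hFc := hF.continuous
  have hFm : Measurable F := hFc.measurable
  have hF'c : Continuous (fderiv ℝ F) := hF.continuous_fderiv (by norm_num)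
  -- bounds of continuous functions on balls
  have hbd : ∀ (φ : EuclideanSpace ℝ (Fin n) → ℝ), Continuous φ → ∀ R : ℝ, ∃ M : ℝ,
      ∀ x, ‖x‖ ≤ R → |φ x| ≤ M := by
    intro φ hφ R
    obtain ⟨M, hM⟩ := (isCompact_closedBall (0 : EuclideanSpace ℝ (Fin n)) R).exists_bound_of_continuousOn
      hφ.continuousOn
    exact ⟨M, fun x hx => hM x (mem_closedBall_zero_iff.2 hx)⟩
  set FL : EuclideanSpace ℝ (Fin n) → ℝ := fun x => F (L • x) with hFL
  have hFLc : ContDiff ℝ 1 FL := hF.comp (contDiff_const_smul L)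
  have hFLi : ∀ φ : EuclideanSpace ℝ (Fin n) → ℝ, Continuous φ → Integrable φ (bh B) := by
    intro φ hφ
    obtain ⟨M, hM⟩ := hbd φ hφ ρ
    exact bh_int h hφ.measurable.aestronglyMeasurable M fun x hx => hM x (hρ x hx)
  set c := ∫ x, FL x ∂(bh B) with hc
  have step1 : ∀ r : ℝ, ENNReal.ofReal
      (∫ y, (F ((r / gauge B y) • y) - ∫ y', F ((r / gauge B y') • y') ∂(bh B)) ^ 2 ∂(bh B)) ≤
      ∫⁻ y, ENNReal.ofReal ((F ((r / gauge B y) • y) - c) ^ 2) ∂(bh B) := by
    intro r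
    have hmeas : Measurable fun y : EuclideanSpace ℝ (Fin n) => F ((r / gauge B y) • y) := by
      fun_prop
    obtain ⟨M, hM⟩ := hbd F hFc (|r| * |C|)
    have hb : ∀ y : EuclideanSpace ℝ (Fin n), |F ((r / gauge B y) • y)| ≤ M := by
      intro y
      refine hM _ ?_
      have h1 := h.unit_le hC y
      rw [div_eq_mul_inv, mul_smul, norm_smul, Real.norm_eq_abs]
      gcongr
    have i1 : Integrable (fun y => F ((r / gauge B y) • y)) (bh B) := int_bdd hmeas hb
    have i2 : Integrable (fun y => F ((r / gauge B y) • y) ^ 2) (bh B) :=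
      int_bdd (hmeas.pow_const 2) (M := M ^ 2) fun y => by
        rw [abs_of_nonneg (sq_nonneg _), ← sq_abs]
        exact pow_le_pow_left₀ (abs_nonneg _) (hb y) 2
    refine (ENNReal.ofReal_le_ofReal (var_le i1 i2 c)).trans (le_of_eq ?_)
    refine ofReal_integral_eq_lintegral_ofReal ?_ (Eventually.of_forall fun y => sq_nonneg _)
    have e : (fun y => (F ((r / gauge B y) • y) - c) ^ 2) =
        fun y => (F ((r / gauge B y) • y) ^ 2 - 2 * c * F ((r / gauge B y) • y)) + c ^ 2 := by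
      ext y; ring
    rw [e]
    exact (i2.sub (i1.const_mul _)).add (integrable_const _)
  have step2 : ∫⁻ r in Ioo (0 : ℝ) L, ENNReal.ofReal (n * r ^ (n - 1)) *
      ∫⁻ y, ENNReal.ofReal ((F ((r / gauge B y) • y) - c) ^ 2) ∂(bh B) =
      ENNReal.ofReal (L ^ n) * ∫⁻ x, ENNReal.ofReal ((F (L • x) - c) ^ 2) ∂(bh B) :=
    (bh_scale hn h (fun x => ENNReal.ofReal ((F x - c) ^ 2)) (by fun_prop) hL).symm
  have step3 : ∫⁻ x, ENNReal.ofReal ((F (L • x) - c) ^ 2) ∂(bh B) = ENNReal.ofReal (VV B FL) := by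
    have hcont : Continuous fun x => (FL x - c) ^ 2 := (hFLc.continuous.sub continuous_const).pow 2
    have h1 := ofReal_integral_eq_lintegral_ofReal (hFLi _ hcont)
      (Eventually.of_forall fun x => sq_nonneg _)
    refine h1.symm.trans ?_
    congr 1
    rw [var_eq (hFLi _ hFLc.continuous) (hFLi _ (hFLc.continuous.pow 2)) c, ← hc, sub_self]
    unfold VV
    rw [EV_bh, EV_bh, ← hc]
    ring
  have hfd : ∀ x, ‖fderiv ℝ FL x‖ ^ 2 = L ^ 2 * ‖fderiv ℝ F (L • x)‖ ^ 2 := by
    intro x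
    have h1 : HasFDerivAt FL ((fderiv ℝ F (L • x)).comp
        (L • ContinuousLinearMap.id ℝ (EuclideanSpace ℝ (Fin n)))) x :=
      ((hF.differentiable (by norm_num)).differentiableAt.hasFDerivAt).comp x
        ((hasFDerivAt_id x).const_smul L)
    rw [h1.fderiv, ContinuousLinearMap.comp_smul, ContinuousLinearMap.comp_id, norm_smul,
      Real.norm_eq_abs, abs_of_pos hL, mul_pow]
  have step4 : ENNReal.ofReal (P * EV B (fun x => ‖fderiv ℝ FL x‖ ^ 2)) =
      ENNReal.ofReal (P * L ^ 2) * ∫⁻ x, ENNReal.ofReal (‖fderiv ℝ F (L • x)‖ ^ 2) ∂(bh B) := by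
    rw [EV_bh]
    simp only [hfd]
    rw [integral_const_mul, ← mul_assoc, ENNReal.ofReal_mul (by positivity)]
    congr 1
    refine ofReal_integral_eq_lintegral_ofReal ?_ (Eventually.of_forall fun x => sq_nonneg _)
    exact hFLi _ ((hF'c.comp (continuous_const_smul L)).norm.pow 2)
  calc _ ≤ ∫⁻ r in Ioo (0 : ℝ) L, ENNReal.ofReal (n * r ^ (n - 1)) *
        ∫⁻ y, ENNReal.ofReal ((F ((r / gauge B y) • y) - c) ^ 2) ∂(bh B) :=
        lintegral_mono fun r => mul_le_mul_right (step1 r) _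
    _ = ENNReal.ofReal (L ^ n) * ENNReal.ofReal (VV B FL) := by rw [step2, step3]
    _ ≤ ENNReal.ofReal (L ^ n) * ENNReal.ofReal (P * EV B (fun x => ‖fderiv ℝ FL x‖ ^ 2)) :=
        mul_le_mul_right (ENNReal.ofReal_le_ofReal (hP FL hFLc)) _
    _ = ENNReal.ofReal (P * L ^ 2) * (ENNReal.ofReal (L ^ n) *
          ∫⁻ x, ENNReal.ofReal (‖fderiv ℝ F (L • x)‖ ^ 2) ∂(bh B)) := by
        rw [step4]; ring
    _ = _ := by
        rw [bh_scale hn h (fun x => ENNReal.ofReal (‖fderiv ℝ F x‖ ^ 2)) (by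
          have : Measurable fun x => ‖fderiv ℝ F x‖ := hF'c.norm.measurable
          fun_prop) hL]

end Pool.Agent.Q188.MB
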