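import Pool.Agent.Q188.MB.Mx
import Pool.Agent.Q188.MB.One
import Pool.Agent.Q188.MB.ES2
import Pool.Agent.Q188.MB.Ball

/-!
# The contribution of the directions
-/

set_option autoImplicit false

namespace Pool.Agent.Q188.MB

open MeasureTheory Set Filter Topology
open scoped ENNReal InnerProductSpace
open Pool.Agent.W695.KH (EV VV)
open Pool.Agent.Q188.NC

/-- the Poincaré inequality with constant `K` relative to the covariance -/
def PI {κ : Type} [Fintype κ] (K : ℝ) (D : Set (EuclideanSpace ℝ κ)) : Prop :=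
  ∀ s : ℝ, (∀ θ : EuclideanSpace ℝ κ, EV D (fun x => ⟪θ, x⟫_ℝ ^ 2) ≤ s * ‖θ‖ ^ 2) →
    ∀ f : EuclideanSpace ℝ κ → ℝ, ContDiff ℝ 1 f →
      VV D f ≤ K * s * EV D (fun x => ‖fderiv ℝ f x‖ ^ 2)

variable {b : ℕ} {d : Fin b → ℕ}
variable {B : ∀ i, Set (EuclideanSpace ℝ (Fin (d i)))} {Ω : Set (Ee d 0)}

/-- squared norm of the partial gradient in polar coordinates -/
noncomputable def Dd (B : ∀ i, Set (EuclideanSpace ℝ (Fin (d i)))) (f : Ee d 0 → ℝ) (i : Fin b)
    (z : Aa b 0 × Yy d) : ℝ :=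
  ‖(fderiv ℝ f (PhE B z)).comp (incL d 0 i).toContinuousLinearMap‖ ^ 2

theorem Dd_meas (h : ∀ i, Dom (B i)) {f : Ee d 0 → ℝ} (hf : ContDiff ℝ 1 f) (i : Fin b) :
    Measurable (Dd B f i) := by
  have h1 : Continuous (fderiv ℝ f) := hf.continuous_fderiv (by norm_num)
  have h2 : Continuous fun x => ‖(fderiv ℝ f x).comp (incL d 0 i).toContinuousLinearMap‖ ^ 2 :=
    (h1.clm_comp continuous_const).norm.pow 2
  exact h2.measurable.comp (PhE_meas h)

theorem sum_blk (g : Ee d 0 →L[ℝ] ℝ) :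
    ∑ i, ‖g.comp (incL d 0 i).toContinuousLinearMap‖ ^ 2 ≤ ‖g‖ ^ 2 := by
  obtain ⟨w, hw⟩ : ∃ w : Ee d 0, ∀ x, g x = ⟪w, x⟫_ℝ := by
    refine ⟨(InnerProductSpace.toDual ℝ (Ee d 0)).symm g, fun x => ?_⟩
    rw [InnerProductSpace.toDual_symm_apply]
  have h1 : ∀ i, ‖g.comp (incL d 0 i).toContinuousLinearMap‖ ≤ ‖blk w i‖ := by
    intro i
    refine ContinuousLinearMap.opNorm_le_bound _ (norm_nonneg _) fun u => ?_
    have h2 : (g.comp (incL d 0 i).toContinuousLinearMap) u = ⟪u, blk w i⟫_ℝ := by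
      show g (incL d 0 i u) = _
      rw [hw, real_inner_comm, inner_inc]
    rw [h2, Real.norm_eq_abs, mul_comm]
    exact abs_real_inner_le_norm _ _
  have h3 : ‖w‖ ≤ ‖g‖ := by
    have h4 := g.le_opNorm w
    rw [hw, real_inner_self_eq_norm_sq, Real.norm_eq_abs, abs_of_nonneg (sq_nonneg _)] at h4
    by_cases h0 : ‖w‖ = 0
    · rw [h0]; exact norm_nonneg _
    · have h5 : 0 < ‖w‖ := lt_of_le_of_ne (norm_nonneg _) (Ne.symm h0)
      rw [sq] at h4
      exact le_of_mul_le_mul_right h4 h5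
  calc ∑ i, ‖g.comp (incL d 0 i).toContinuousLinearMap‖ ^ 2 ≤ ∑ i, ‖blk w i‖ ^ 2 :=
        Finset.sum_le_sum fun i _ => pow_le_pow_left₀ (norm_nonneg _) (h1 i) 2
    _ = ‖w‖ ^ 2 := by
        rw [norm_sq_eq]
        simp
    _ ≤ ‖g‖ ^ 2 := pow_le_pow_left₀ (norm_nonneg _) h3 2

theorem sum_Dd {f : Ee d 0 → ℝ} (hf' : ∀ x, ‖fderiv ℝ f x‖ ≤ 1) (z : Aa b 0 × Yy d) :
    ∑ i, Dd B f i z ≤ 1 := by
  refine (sum_blk _).trans ?_
  have := hf' (PhE B z)
  have h0 := norm_nonneg (fderiv ℝ f (PhE B z))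
  nlinarith

theorem PhE_base (a : Aa b 0) (x : Yy d) (i : Fin b) (r : ℝ) :
    PhE B (((Function.update a.1 i r, a.2) : Aa b 0), Function.update x i 0) =
      PhE B (a, Function.update x i 0) := by
  ext p
  rcases p with ⟨l, j⟩ | j
  · show (Function.update a.1 i r l) / gauge (B l) (Function.update x i 0 l) *
        Function.update x i 0 l j =
      a.1 l / gauge (B l) (Function.update x i 0 l) * Function.update x i 0 l j
    by_cases hl : l = i
    · subst hl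
      simp only [Function.update_self]
      show _ * (0 : ℝ) = _ * (0 : ℝ)
      rw [mul_zero, mul_zero]
    · rw [Function.update_of_ne hl]
  · exact j.elim0

/-- the point with a radius and a block replaced -/
theorem PhE_pt (a : Aa b 0) (x : Yy d) (i : Fin b) (r : ℝ) (t : EuclideanSpace ℝ (Fin (d i))) :
    PhE B (((Function.update a.1 i r, a.2) : Aa b 0), Function.update x i t) =
      PhE B (a, Function.update x i 0) + incL d 0 i ((r / gauge (B i) t) • t) := by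
  rw [PhE_update, PhE_base]
  congr 1
  show Function.update a.1 i r i • incL d 0 i ((gauge (B i) t)⁻¹ • t) = _
  rw [Function.update_self, ← map_smul, smul_smul, ← div_eq_mul_inv]

/-- the variance in one block -/
noncomputable def Vv (B : ∀ i, Set (EuclideanSpace ℝ (Fin (d i)))) (Ω : Set (Ee d 0)) (e : Yy d)
    (f : Ee d 0 → ℝ) (i : Fin b) (z : Aa b 0 × Yy d) : ℝ :=
  vi (fun i => bh (B i)) (fun Y => Gg B Ω e f (z.1, Y)) i z.2

/-- the mean square partial gradient in one block -/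
noncomputable def Ww (B : ∀ i, Set (EuclideanSpace ℝ (Fin (d i)))) (f : Ee d 0 → ℝ) (i : Fin b)
    (z : Aa b 0 × Yy d) : ℝ≥0∞ :=
  ∫⁻ t, ENNReal.ofReal (Dd B f i (z.1, Function.update z.2 i t)) ∂(bh (B i))

theorem upd3_meas (i : Fin b) : Measurable fun p : (Aa b 0 × Yy d) × EuclideanSpace ℝ (Fin (d i)) =>
    ((p.1.1, Function.update p.1.2 i p.2) : Aa b 0 × Yy d) := by
  refine (measurable_fst.comp measurable_fst).prodMk ?_
  have h2 : Measurable fun p : (Aa b 0 × Yy d) × EuclideanSpace ℝ (Fin (d i)) =>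
      ((p.1.2, p.2) : Yy d × EuclideanSpace ℝ (Fin (d i))) :=
    (measurable_snd.comp measurable_fst).prodMk measurable_snd
  exact measurable_update'.comp h2

/-- measurability of the variance in one block -/
theorem Vv_meas (H : NCm B Ω) (e : Yy d) {f : Ee d 0 → ℝ} (hf : Continuous f) (i : Fin b) :
    Measurable (Vv B Ω e f i) := by
  have : ∀ i, IsProbabilityMeasure (bh (B i)) := fun i => (H.dB i).bh_prob
  have hm := Gg_meas H e hf
  have h1 : Measurable fun p : (Aa b 0 × Yy d) × EuclideanSpace ℝ (Fin (d i)) =>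
      Gg B Ω e f (p.1.1, Function.update p.1.2 i p.2) := hm.comp (upd3_meas i)
  have h2 : Measurable fun z : Aa b 0 × Yy d =>
      ∫ t', Gg B Ω e f (z.1, Function.update z.2 i t') ∂(bh (B i)) :=
    (h1.stronglyMeasurable.integral_prod_right' (ν := bh (B i))).measurable
  have h3 : Measurable fun p : (Aa b 0 × Yy d) × EuclideanSpace ℝ (Fin (d i)) =>
      (Gg B Ω e f (p.1.1, Function.update p.1.2 i p.2) -
        ∫ t', Gg B Ω e f (p.1.1, Function.update p.1.2 i t') ∂(bh (B i))) ^ 2 :=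
    (h1.sub (h2.comp measurable_fst)).pow_const 2
  exact (h3.stronglyMeasurable.integral_prod_right' (ν := bh (B i))).measurable

theorem Ww_meas (h : ∀ i, Dom (B i)) {f : Ee d 0 → ℝ} (hf : ContDiff ℝ 1 f) (i : Fin b) :
    Measurable (Ww B f i) := by
  have : ∀ i, IsProbabilityMeasure (bh (B i)) := fun i => (h i).bh_prob
  have hDm := Dd_meas h hf i
  have h1 : Measurable fun p : (Aa b 0 × Yy d) × EuclideanSpace ℝ (Fin (d i)) =>
      ENNReal.ofReal (Dd B f i (p.1.1, Function.update p.1.2 i p.2)) :=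
    (hDm.comp (upd3_meas i)).ennreal_ofReal
  exact h1.lintegral_prod_right'

/-- the inequality on a section -/
theorem sec_ineq (H : NCm B Ω) {e : Yy d} (he : ∀ i, gauge (B i) (e i) = 1) {f : Ee d 0 → ℝ}
    (hf : ContDiff ℝ 1 f) (i : Fin b) {P : ℝ} (hP0 : 0 ≤ P)
    (hP : ∀ f : EuclideanSpace ℝ (Fin (d i)) → ℝ, ContDiff ℝ 1 f →
      VV (B i) f ≤ P * EV (B i) (fun x => ‖fderiv ℝ f x‖ ^ 2)) (a : Aa b 0) (Y : Yy d) :
    ∫⁻ r in Ioo 0 (LL Ω e i a), ENNReal.ofReal (d i * r ^ (d i - 1)) *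
        ENNReal.ofReal (Vv B Ω e f i (((Function.update a.1 i r, a.2) : Aa b 0), Y)) ≤
      ∫⁻ r in Ioo 0 (LL Ω e i a), ENNReal.ofReal (d i * r ^ (d i - 1)) *
        (ENNReal.ofReal (P * LL Ω e i a ^ 2) *
          Ww B f i (((Function.update a.1 i r, a.2) : Aa b 0), Y)) := by
  have : ∀ i, IsProbabilityMeasure (bh (B i)) := fun i => (H.dB i).bh_prob
  rcases (LL_nn Ω e i a).eq_or_lt with h0 | hL
  · rw [← h0]
    simp
  · set w := PhE B (a, Function.update Y i 0) with hw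
    set F : EuclideanSpace ℝ (Fin (d i)) → ℝ := fun y => f (w + incL d 0 i y) with hF
    have hFc : ContDiff ℝ 1 F := hf.comp (contDiff_const.add (incL d 0 i).contDiff)
    have hfd : ∀ y, fderiv ℝ F y =
        (fderiv ℝ f (w + incL d 0 i y)).comp (incL d 0 i).toContinuousLinearMap := by
      intro y
      have h1 : HasFDerivAt (fun y => w + incL d 0 i y)
          (incL d 0 i).toContinuousLinearMap y :=
        ((incL d 0 i).toContinuousLinearMap.hasFDerivAt).const_add w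
      have h2 : HasFDerivAt F ((fderiv ℝ f (w + incL d 0 i y)).comp
          (incL d 0 i).toContinuousLinearMap) y :=
        ((hf.differentiable (by norm_num)).differentiableAt.hasFDerivAt).comp y h1
      exact h2.fderiv
    have h1 := one_block (H.pos i) (H.dB i) hP0 hP hFc hL
    have e1 : ∀ r ∈ Ioo 0 (LL Ω e i a), Vv B Ω e f i (((Function.update a.1 i r, a.2) : Aa b 0), Y) =
        ∫ y, (F ((r / gauge (B i) y) • y) - ∫ y', F ((r / gauge (B i) y') • y') ∂(bh (B i))) ^ 2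
          ∂(bh (B i)) := by
      intro r hr
      have hr' : r ∈ Sc Ω e i a := by rw [Sc_eq H he i a]; exact hr
      have h2 : ∀ t, Gg B Ω e f (((Function.update a.1 i r, a.2) : Aa b 0),
          Function.update Y i t) = F ((r / gauge (B i) t) • t) := by
        intro t
        rw [Gg_of e f hr'.2, PhE_pt]
      show ∫ t, (Gg B Ω e f (((Function.update a.1 i r, a.2) : Aa b 0), Function.update Y i t) -
        ∫ t', Gg B Ω e f (((Function.update a.1 i r, a.2) : Aa b 0), Function.update Y i t')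
          ∂(bh (B i))) ^ 2 ∂(bh (B i)) = _
      simp only [h2]
    have e2 : ∀ r, Ww B f i (((Function.update a.1 i r, a.2) : Aa b 0), Y) =
        ∫⁻ y, ENNReal.ofReal (‖fderiv ℝ F ((r / gauge (B i) y) • y)‖ ^ 2) ∂(bh (B i)) := by
      intro r
      unfold Ww
      refine lintegral_congr fun t => ?_
      unfold Dd
      simp only
      rw [PhE_pt, hfd]
    have hgm : Measurable (gauge (B i)) := (H.dB i).cont.measurable
    have hF'c : Continuous (fderiv ℝ F) := hFc.continuous_fderiv (by norm_num)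
    have hF'm : Measurable fun y => ‖fderiv ℝ F y‖ ^ 2 := (hF'c.norm.pow 2).measurable
    have hinm : Measurable fun r : ℝ =>
        ∫⁻ y, ENNReal.ofReal (‖fderiv ℝ F ((r / gauge (B i) y) • y)‖ ^ 2) ∂(bh (B i)) := by
      have h4 : Measurable fun z : ℝ × EuclideanSpace ℝ (Fin (d i)) =>
          (z.1 / gauge (B i) z.2) • z.2 := by fun_prop
      exact ((hF'm.comp h4).ennreal_ofReal).lintegral_prod_right'
    have hmp : Measurable fun r : ℝ => ENNReal.ofReal (d i * r ^ (d i - 1)) *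
        ∫⁻ y, ENNReal.ofReal (‖fderiv ℝ F ((r / gauge (B i) y) • y)‖ ^ 2) ∂(bh (B i)) :=
      Measurable.mul (by fun_prop) hinm
    rw [← lintegral_const_mul _ hmp] at h1
    refine le_trans (le_of_eq ?_) (h1.trans (le_of_eq ?_))
    · refine setLIntegral_congr_fun measurableSet_Ioo fun r hr => ?_
      rw [e1 r hr]
    · refine lintegral_congr fun r => ?_
      rw [e2 r]
      ring

/-- **one block on average** -/
theorem blk_avg (H : NCm B Ω) {e : Yy d} (he : ∀ i, gauge (B i) (e i) = 1) {f : Ee d 0 → ℝ}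
    (hf : ContDiff ℝ 1 f) (i : Fin b) {P : ℝ} (hP0 : 0 ≤ P)
    (hP : ∀ f : EuclideanSpace ℝ (Fin (d i)) → ℝ, ContDiff ℝ 1 f →
      VV (B i) f ≤ P * EV (B i) (fun x => ‖fderiv ℝ f x‖ ^ 2)) :
    ∫⁻ a, ∫⁻ Y, ENNReal.ofReal (Vv B Ω e f i (a, Y)) ∂(Measure.pi fun i => bh (B i)) ∂(al Ω e) ≤
      ∫⁻ a, ENNReal.ofReal (P * LL Ω e i a ^ 2) * ∫⁻ Y, ENNReal.ofReal (Dd B f i (a, Y))
        ∂(Measure.pi fun i => bh (B i)) ∂(al Ω e) := by
  have hal := al_prob H he
  have : ∀ i, IsProbabilityMeasure (bh (B i)) := fun i => (H.dB i).bh_prob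
  have hLm := LL_meas H e i
  have hDm := Dd_meas H.dB hf i
  have hvm := Vv_meas H e hf.continuous i
  have hWm := Ww_meas H.dB hf i
  have hPL : Measurable fun a : Aa b 0 => ENNReal.ofReal (P * LL Ω e i a ^ 2) := by fun_prop
  have hL1 : AEMeasurable (Function.uncurry fun (a : Aa b 0) (Y : Yy d) =>
      ENNReal.ofReal (Vv B Ω e f i (a, Y))) ((al Ω e).prod (Measure.pi fun i => bh (B i))) :=
    hvm.ennreal_ofReal.aemeasurable
  rw [lintegral_lintegral_swap hL1]
  have key : ∀ Y : Yy d, ∫⁻ a, ENNReal.ofReal (Vv B Ω e f i (a, Y)) ∂(al Ω e) ≤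
      ∫⁻ a, ENNReal.ofReal (P * LL Ω e i a ^ 2) * Ww B f i (a, Y) ∂(al Ω e) := by
    intro Y
    have m1 : Measurable fun a : Aa b 0 => ENNReal.ofReal (Vv B Ω e f i (a, Y)) :=
      (hvm.comp measurable_prodMk_right).ennreal_ofReal
    have m2 : Measurable fun a : Aa b 0 => ENNReal.ofReal (P * LL Ω e i a ^ 2) * Ww B f i (a, Y) :=
      hPL.mul (hWm.comp measurable_prodMk_right)
    refine al0_upd_le H he i m1 m2 fun a => ?_
    simp only [LL_update]
    exact sec_ineq H he hf i hP0 hP a Y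
  refine (lintegral_mono key).trans ?_
  have hR1 : AEMeasurable (Function.uncurry fun (Y : Yy d) (a : Aa b 0) =>
      ENNReal.ofReal (P * LL Ω e i a ^ 2) * Ww B f i (a, Y))
      ((Measure.pi fun i => bh (B i)).prod (al Ω e)) :=
    ((hPL.comp measurable_snd).mul (hWm.comp measurable_swap)).aemeasurable
  rw [lintegral_lintegral_swap hR1]
  refine le_of_eq (lintegral_congr fun a => ?_)
  have m3 : Measurable fun Y : Yy d => Ww B f i (a, Y) := hWm.comp measurable_prodMk_left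
  rw [lintegral_const_mul _ m3]
  congr 1
  have h5 : Measurable fun Y : Yy d => ENNReal.ofReal (Dd B f i (a, Y)) :=
    (hDm.comp measurable_prodMk_left).ennreal_ofReal
  exact upd_int (fun i => bh (B i)) h5 i

/-- contribution of the directions -/
theorem part_one' (H : NCm B Ω) {e : Yy d} (he : ∀ i, gauge (B i) (e i) = 1) {K : ℝ}
    (hK0 : 0 ≤ K) (hK : ∀ i, PI K (B i)) {T : ℝ} (hT0 : 0 ≤ T)
    (hT : ∑ i, Real.exp (-(T * d i)) ≤ 1) {s : ℝ} (hs0 : 0 < s)
    (hs : ∀ θ : Ee d 0, EV Ω (fun x => ⟪θ, x⟫_ℝ ^ 2) ≤ s * ‖θ‖ ^ 2) {f : Ee d 0 → ℝ}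
    (hf : ContDiff ℝ 1 f) (hf' : ∀ x, ‖fderiv ℝ f x‖ ≤ 1) :
    ∫ a, ∫ Y, (Gg B Ω e f (a, Y) - ∫ Y', Gg B Ω e f (a, Y') ∂(Measure.pi fun i => bh (B i))) ^ 2
      ∂(Measure.pi fun i => bh (B i)) ∂(al Ω e) ≤ K * (4 * (5 + 2 * T) ^ 2 * s) := by
  have hal := al_prob H he
  have : ∀ i, IsProbabilityMeasure (bh (B i)) := fun i => (H.dB i).bh_prob
  obtain ⟨M, hM⟩ := Gg_bd H he hf hf'
  have hm := Gg_meas H e hf.continuous
  set γ := Measure.pi fun i => bh (B i) with hγ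
  set V : Fin b → Aa b 0 × Yy d → ℝ := fun i => Vv B Ω e f i with hV
  have hVm : ∀ i, Measurable (V i) := fun i => Vv_meas H e hf.continuous i
  have hVb : ∀ i z, |V i z| ≤ (M + M) ^ 2 := fun i z =>
    vi_bd (fun i => bh (B i)) (fun Y => hM (z.1, Y)) i z.2
  have hVn : ∀ i z, 0 ≤ V i z := fun i z => vi_nn (fun i => bh (B i)) i z.2
  have hVI : ∀ i, Integrable (V i) ((al Ω e).prod γ) := fun i => int_bdd (hVm i) (hVb i)
  have hVa : ∀ i, Integrable (fun a => ∫ Y, V i (a, Y) ∂γ) (al Ω e) := fun i =>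
    (hVI i).integral_prod_left
  -- Efron-Stein
  have s1 : ∀ a, ∫ Y, (Gg B Ω e f (a, Y) - ∫ Y', Gg B Ω e f (a, Y') ∂γ) ^ 2 ∂γ ≤
      ∑ i, ∫ Y, V i (a, Y) ∂γ := fun a =>
    es2 (fun i => bh (B i)) (fun Y => Gg B Ω e f (a, Y)) (by fun_prop) M fun Y => hM _
  have s2 : ∫ a, ∫ Y, (Gg B Ω e f (a, Y) - ∫ Y', Gg B Ω e f (a, Y') ∂γ) ^ 2 ∂γ ∂(al Ω e) ≤
      ∑ i, ∫ a, ∫ Y, V i (a, Y) ∂γ ∂(al Ω e) := by
    rw [← integral_finsetSum _ fun i _ => hVa i]
    exact integral_mono_of_nonneg (Eventually.of_forall fun a => integral_nonneg fun Y =>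
      sq_nonneg _) (integrable_finsetSum _ fun i _ => hVa i) (Eventually.of_forall s1)
  refine s2.trans ?_
  have hR0 : 0 ≤ K * (4 * (5 + 2 * T) ^ 2 * s) := by positivity
  rw [← ENNReal.ofReal_le_ofReal_iff hR0, ENNReal.ofReal_sum_of_nonneg fun i _ =>
    integral_nonneg fun a => integral_nonneg fun Y => hVn i _]
  have s3 : ∀ i, ENNReal.ofReal (∫ a, ∫ Y, V i (a, Y) ∂γ ∂(al Ω e)) =
      ∫⁻ a, ∫⁻ Y, ENNReal.ofReal (V i (a, Y)) ∂γ ∂(al Ω e) := by
    intro i
    rw [ofReal_integral_eq_lintegral_ofReal (hVa i)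
      (Eventually.of_forall fun a => integral_nonneg fun Y => hVn i _)]
    refine lintegral_congr fun a => ?_
    refine ofReal_integral_eq_lintegral_ofReal ?_ (Eventually.of_forall fun Y => hVn i _)
    exact int_bdd ((hVm i).comp measurable_prodMk_left) fun Y => hVb i _
  have hS : ∀ i (u : EuclideanSpace ℝ (Fin (d i))),
      EV (B i) (fun x => ⟪u, x⟫_ℝ ^ 2) ≤ s / mm Ω e i 2 * ‖u‖ ^ 2 := by
    intro i u
    rw [pp_mom (H.pos i) (H.dB i)]
    have h1 := cov_block H he hs i u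
    have h2 : 0 ≤ pp (B i) u := integral_nonneg fun y => by positivity
    have h3 : (d i : ℝ) / (d i + 2) ≤ 1 := by
      rw [div_le_one (by positivity)]; linarith
    calc (d i : ℝ) / (d i + 2) * pp (B i) u ≤ 1 * pp (B i) u := by gcongr
      _ = pp (B i) u := one_mul _
      _ ≤ _ := h1
  have s4 : ∀ i, ∫⁻ a, ∫⁻ Y, ENNReal.ofReal (V i (a, Y)) ∂γ ∂(al Ω e) ≤
      ∫⁻ a, ENNReal.ofReal (K * Mxx Ω e s T a) * ∫⁻ Y, ENNReal.ofReal (Dd B f i (a, Y)) ∂γ
        ∂(al Ω e) := by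
    intro i
    have hM2 := mm_pos H he i 2
    have hP0 : 0 ≤ K * (s / mm Ω e i 2) := by positivity
    refine (blk_avg H he hf i hP0 fun g hg => hK i _ (hS i) g hg).trans ?_
    refine lintegral_mono fun a => mul_le_mul_left (ENNReal.ofReal_le_ofReal ?_) _
    rw [mul_assoc]
    exact mul_le_mul_of_nonneg_left (Mxx_le H he hs0 hT0 i a) hK0
  have hDm := fun i => Dd_meas H.dB hf i
  have hMm := Mxx_meas H e s T
  have hDD : ∀ i, Measurable fun a : Aa b 0 => ENNReal.ofReal (K * Mxx Ω e s T a) *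
      ∫⁻ Y, ENNReal.ofReal (Dd B f i (a, Y)) ∂γ := fun i =>
    Measurable.mul (by fun_prop) (((hDm i).ennreal_ofReal).lintegral_prod_right')
  calc ∑ i, ENNReal.ofReal (∫ a, ∫ Y, V i (a, Y) ∂γ ∂(al Ω e))
      ≤ ∑ i, ∫⁻ a, ENNReal.ofReal (K * Mxx Ω e s T a) *
          ∫⁻ Y, ENNReal.ofReal (Dd B f i (a, Y)) ∂γ ∂(al Ω e) := by
        refine Finset.sum_le_sum fun i _ => ?_
        rw [s3]
        exact s4 i
    _ = ∫⁻ a, ∑ i, ENNReal.ofReal (K * Mxx Ω e s T a) *
          ∫⁻ Y, ENNReal.ofReal (Dd B f i (a, Y)) ∂γ ∂(al Ω e) :=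
        (lintegral_finsetSum _ fun i _ => hDD i).symm
    _ ≤ ∫⁻ a, ENNReal.ofReal (K * Mxx Ω e s T a) ∂(al Ω e) := by
        refine lintegral_mono fun a => ?_
        rw [← Finset.mul_sum]
        have h6 : ∑ i, ∫⁻ Y, ENNReal.ofReal (Dd B f i (a, Y)) ∂γ ≤ 1 := by
          have hD1 : ∀ i, Measurable fun Y : Yy d => ENNReal.ofReal (Dd B f i (a, Y)) := fun i =>
            ((hDm i).comp measurable_prodMk_left).ennreal_ofReal
          rw [← lintegral_finsetSum _ fun i _ => hD1 i]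
          calc ∫⁻ Y, ∑ i, ENNReal.ofReal (Dd B f i (a, Y)) ∂γ ≤ ∫⁻ _Y, 1 ∂γ := by
                refine lintegral_mono fun Y => ?_
                rw [← ENNReal.ofReal_sum_of_nonneg fun i _ =>
                  (show 0 ≤ Dd B f i (a, Y) from sq_nonneg _)]
                exact ENNReal.ofReal_le_one.2 (sum_Dd hf' (a, Y))
            _ = 1 := by simp
        calc ENNReal.ofReal (K * Mxx Ω e s T a) * ∑ i, ∫⁻ Y, ENNReal.ofReal (Dd B f i (a, Y)) ∂γ
            ≤ ENNReal.ofReal (K * Mxx Ω e s T a) * 1 := mul_le_mul_right h6 _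
          _ = _ := mul_one _
    _ = ENNReal.ofReal K * ∫⁻ a, ENNReal.ofReal (Mxx Ω e s T a) ∂(al Ω e) := by
        rw [← lintegral_const_mul _ (by fun_prop)]
        simp only [ENNReal.ofReal_mul hK0]
    _ ≤ ENNReal.ofReal K * ENNReal.ofReal (4 * (5 + 2 * T) ^ 2 * s) :=
        mul_le_mul_right (Mxx_int H he hs0 hT0 hT) _
    _ = ENNReal.ofReal (K * (4 * (5 + 2 * T) ^ 2 * s)) := (ENNReal.ofReal_mul hK0).symm

end Pool.Agent.Q188.MB
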