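import Mathlib

/-!
# Smoothing of Lipschitz functions
-/

set_option autoImplicit false

namespace Pool.Agent.Q188.MB

open MeasureTheory Set Filter Topology
open scoped ENNReal Convolution

variable {E : Type*} [NormedAddCommGroup E] [InnerProductSpace ℝ E] [FiniteDimensional ℝ E]
  [MeasurableSpace E] [BorelSpace E]

/-- a 1-Lipschitz function is a uniform limit of `C¹` 1-Lipschitz functions -/
theorem smooth {f : E → ℝ} (hf : LipschitzWith 1 f) {ε : ℝ} (hε : 0 < ε) :
    ∃ g : E → ℝ, ContDiff ℝ 1 g ∧ (∀ x, ‖fderiv ℝ g x‖ ≤ 1) ∧ ∀ x, |g x - f x| ≤ ε := by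
  set φ : ContDiffBump (0 : E) := ⟨ε / 2, ε, half_pos hε, half_lt_self hε⟩ with hφ
  set μ : Measure E := volume
  set g : E → ℝ := (φ.normed μ ⋆[ContinuousLinearMap.lsmul ℝ ℝ, μ] f) with hg
  have hcs : HasCompactSupport (φ.normed μ) := φ.hasCompactSupport_normed
  have hfl : LocallyIntegrable f μ := hf.continuous.locallyIntegrable
  have hφc : Continuous (φ.normed μ) := φ.continuous_normed
  have hcd : ContDiff ℝ 1 g :=
    hcs.contDiff_convolution_left (ContinuousLinearMap.lsmul ℝ ℝ) φ.contDiff_normed hfl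
  have hint : ∀ x, Integrable (fun t => φ.normed μ t * f (x - t)) μ := by
    intro x
    refine (hφc.mul (hf.continuous.comp (continuous_const.sub continuous_id))).integrable_of_hasCompactSupport ?_
    exact hcs.mul_right
  have hgx : ∀ x, g x = ∫ t, φ.normed μ t * f (x - t) ∂μ := fun x => rfl
  refine ⟨g, hcd, fun x => ?_, fun x => ?_⟩
  · have hL : LipschitzWith 1 g := by
      refine LipschitzWith.of_dist_le_mul fun x y => ?_
      rw [Real.dist_eq, hgx, hgx, ← integral_sub (hint x) (hint y)]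
      have h1 : ∀ t, φ.normed μ t * f (x - t) - φ.normed μ t * f (y - t) =
          φ.normed μ t * (f (x - t) - f (y - t)) := fun t => by ring
      simp only [h1]
      calc |∫ t, φ.normed μ t * (f (x - t) - f (y - t)) ∂μ|
          ≤ ∫ t, |φ.normed μ t * (f (x - t) - f (y - t))| ∂μ := abs_integral_le_integral_abs
        _ ≤ ∫ t, φ.normed μ t * ‖x - y‖ ∂μ := by
            refine integral_mono_of_nonneg (Eventually.of_forall fun t => abs_nonneg _)
              (φ.integrable_normed.mul_const _) (Eventually.of_forall fun t => ?_)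
            show |φ.normed μ t * (f (x - t) - f (y - t))| ≤ φ.normed μ t * ‖x - y‖
            rw [abs_mul, abs_of_nonneg (φ.nonneg_normed t)]
            refine mul_le_mul_of_nonneg_left ?_ (φ.nonneg_normed t)
            have h2 := hf.dist_le_mul (x - t) (y - t)
            rw [Real.dist_eq, dist_eq_norm, NNReal.coe_one, one_mul, sub_sub_sub_cancel_right] at h2
            exact h2
        _ = ((1 : NNReal) : ℝ) * dist x y := by
            rw [integral_mul_const, φ.integral_normed, NNReal.coe_one, dist_eq_norm]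
    have := norm_fderiv_le_of_lipschitz ℝ hL (x₀ := x)
    simpa using this
  · have h1 : dist (g x) (f x) ≤ ε := by
      refine φ.dist_normed_convolution_le hf.continuous.aestronglyMeasurable fun y hy => ?_
      have h2 := hf.dist_le_mul y x
      rw [NNReal.coe_one, one_mul] at h2
      exact h2.trans (Metric.mem_ball.1 hy).le
    rwa [Real.dist_eq] at h1

/-- variance inequalities pass from `C¹` functions to Lipschitz functions -/
theorem var_lip {μ : Measure E} [IsProbabilityMeasure μ] {R : ℝ} (hR : ∀ᵐ x ∂μ, ‖x‖ ≤ R) {C : ℝ}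
    (h : ∀ f : E → ℝ, ContDiff ℝ 1 f → (∀ x, ‖fderiv ℝ f x‖ ≤ 1) →
      ∫ x, f x ^ 2 ∂μ - (∫ x, f x ∂μ) ^ 2 ≤ C) {f : E → ℝ} (hf : LipschitzWith 1 f) :
    ∫ x, f x ^ 2 ∂μ - (∫ x, f x ∂μ) ^ 2 ≤ C := by
  have h1 : ∀ n : ℕ, ∃ g : E → ℝ, ContDiff ℝ 1 g ∧ (∀ x, ‖fderiv ℝ g x‖ ≤ 1) ∧
      ∀ x, |g x - f x| ≤ 1 / ((n : ℝ) + 1) := fun n => smooth hf (by positivity)
  choose g hg1 hg2 hg3 using h1
  have hfb : ∀ x, |f x| ≤ |f 0| + ‖x‖ := by
    intro x
    have h2 := hf.dist_le_mul x 0
    rw [Real.dist_eq, dist_zero_right, NNReal.coe_one, one_mul] at h2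
    have h3 := abs_add_le (f x - f 0) (f 0)
    rw [sub_add_cancel] at h3
    linarith
  have hgb : ∀ n, ∀ᵐ x ∂μ, |g n x| ≤ |f 0| + R + 1 := by
    intro n
    filter_upwards [hR] with x hx
    have h2 := hg3 n x
    have h3 := abs_add_le (g n x - f x) (f x)
    rw [sub_add_cancel] at h3
    have h4 := hfb x
    have h5 : 1 / ((n : ℝ) + 1) ≤ 1 := by
      rw [div_le_one (by positivity)]
      have : (0 : ℝ) ≤ n := Nat.cast_nonneg n
      linarith
    linarith
  have hlim : ∀ x, Tendsto (fun n => g n x) atTop (𝓝 (f x)) := by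
    intro x
    rw [tendsto_iff_dist_tendsto_zero]
    refine squeeze_zero (fun n => dist_nonneg) (fun n => ?_)
      (tendsto_one_div_add_atTop_nhds_zero_nat (𝕜 := ℝ))
    rw [Real.dist_eq]
    exact hg3 n x
  have t1 : Tendsto (fun n => ∫ x, g n x ∂μ) atTop (𝓝 (∫ x, f x ∂μ)) := by
    refine tendsto_integral_of_dominated_convergence (fun _ => |f 0| + R + 1)
      (fun n => (hg1 n).continuous.aestronglyMeasurable) (integrable_const _) (fun n => hgb n)
      (Eventually.of_forall fun x => hlim x)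
  have t2 : Tendsto (fun n => ∫ x, g n x ^ 2 ∂μ) atTop (𝓝 (∫ x, f x ^ 2 ∂μ)) := by
    refine tendsto_integral_of_dominated_convergence (fun _ => (|f 0| + R + 1) ^ 2)
      (fun n => ((hg1 n).continuous.pow 2).aestronglyMeasurable) (integrable_const _) (fun n => ?_)
      (Eventually.of_forall fun x => (hlim x).pow 2)
    filter_upwards [hgb n] with x hx
    rw [Real.norm_eq_abs, abs_of_nonneg (sq_nonneg _), ← sq_abs]
    exact pow_le_pow_left₀ (abs_nonneg _) hx 2
  exact le_of_tendsto (t2.sub (t1.pow 2)) (Eventually.of_forall fun n => h (g n) (hg1 n) (hg2 n))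

end Pool.Agent.Q188.MB
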