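import Pool.Agent.Q188.MB.Cmp

/-!
# Sections of the radii region
-/

set_option autoImplicit false

namespace Pool.Agent.Q188.MB

open MeasureTheory Set Filter Topology
open scoped ENNReal InnerProductSpace
open Pool.Agent.W695.KH (EV VV)
open Pool.Agent.Q188.NC

section upd

variable {ι : Type} [Fintype ι] [DecidableEq ι] {X : ι → Type} [∀ i, MeasurableSpace (X i)]
  (μ : ∀ i, Measure (X i)) [∀ i, SigmaFinite (μ i)] [∀ i, Nonempty (X i)]

theorem upd_le {f g : (∀ i, X i) → ℝ≥0∞} (hf : Measurable f) (hg : Measurable g) (i : ι)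
    (h : ∀ x, ∫⁻ t, f (Function.update x i t) ∂(μ i) ≤ ∫⁻ t, g (Function.update x i t) ∂(μ i)) :
    ∫⁻ x, f x ∂(Measure.pi μ) ≤ ∫⁻ x, g x ∂(Measure.pi μ) := by
  have x0 : ∀ i, X i := fun i => Classical.arbitrary _
  rw [lintegral_eq_lmarginal_univ x0, lintegral_eq_lmarginal_univ x0,
    lmarginal_erase' (μ := μ) f hf (Finset.mem_univ i), lmarginal_erase' (μ := μ) g hg (Finset.mem_univ i)]
  exact lmarginal_mono (fun x => h x) x0

theorem upd_eq {f g : (∀ i, X i) → ℝ≥0∞} (hf : Measurable f) (hg : Measurable g) (i : ι)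
    (h : ∀ x, ∫⁻ t, f (Function.update x i t) ∂(μ i) = ∫⁻ t, g (Function.update x i t) ∂(μ i)) :
    ∫⁻ x, f x ∂(Measure.pi μ) = ∫⁻ x, g x ∂(Measure.pi μ) :=
  le_antisymm (upd_le μ hf hg i fun x => (h x).le) (upd_le μ hg hf i fun x => (h x).ge)

theorem upd_int {H : (∀ i, X i) → ℝ≥0∞} (hH : Measurable H) (i : ι) [IsProbabilityMeasure (μ i)] :
    ∫⁻ x, ∫⁻ t, H (Function.update x i t) ∂(μ i) ∂(Measure.pi μ) = ∫⁻ x, H x ∂(Measure.pi μ) := by
  have h1 : Measurable fun p : (∀ i, X i) × X i => H (Function.update p.1 i p.2) :=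
    hH.comp measurable_update'
  refine upd_eq μ h1.lintegral_prod_right' hH i fun x => ?_
  simp only [Function.update_idem]
  rw [lintegral_const, measure_univ, mul_one]

end upd

variable {b : ℕ} {d : Fin b → ℕ}
variable {B : ∀ i, Set (EuclideanSpace ℝ (Fin (d i)))} {Ω : Set (Ee d 0)}

/-- the positive section of the radii region -/
def Sc (Ω : Set (Ee d 0)) (e : Yy d) (i : Fin b) (a : Aa b 0) : Set ℝ :=
  {r | 0 < r ∧ ((Function.update a.1 i r, a.2) : Aa b 0) ∈ D0 Ω e}

/-- the length of the section -/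
noncomputable def LL (Ω : Set (Ee d 0)) (e : Yy d) (i : Fin b) (a : Aa b 0) : ℝ :=
  (volume (Sc Ω e i a)).toReal

theorem upd_cont (i : Fin b) (a : Aa b 0) :
    Continuous fun r : ℝ => ((Function.update a.1 i r, a.2) : Aa b 0) := by
  have h1 : Continuous fun r : ℝ => (Function.update a.1 i r : Fin b → ℝ) :=
    Continuous.update (A := fun _ => ℝ) continuous_const i continuous_id
  exact h1.prodMk continuous_const

theorem Sc_eq (H : NCm B Ω) {e : Yy d} (he : ∀ i, gauge (B i) (e i) = 1) (i : Fin b) (a : Aa b 0) :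
    Sc Ω e i a = Ioo 0 (LL Ω e i a) := by
  obtain ⟨ρ, hρ0, hρ⟩ := al_bd H he
  have hmem : ∀ r, r ∈ Sc Ω e i a ↔ 0 < r ∧ ((Function.update a.1 i r, a.2) : Aa b 0) ∈ D0 Ω e :=
    fun r => Iff.rfl
  have hop : IsOpen (Sc Ω e i a) := by
    have h1 : Sc Ω e i a = Ioi 0 ∩ (fun r : ℝ => ((Function.update a.1 i r, a.2) : Aa b 0)) ⁻¹'
        D0 Ω e := rfl
    rw [h1]
    exact isOpen_Ioi.inter ((D0_open H.dΩ e).preimage (upd_cont i a))
  have hdown : ∀ r ∈ Sc Ω e i a, ∀ r', 0 < r' → r' ≤ r → r' ∈ Sc Ω e i a := by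
    intro r hr r' h0 hle
    refine ⟨h0, ?_⟩
    have h1 := D0_one H he (a := (Function.update a.1 i r, a.2)) i (t := r') (by
      simp only [Function.update_self]
      rw [abs_of_pos h0, abs_of_pos (h0.trans_le hle)]
      exact hle) hr.2
    simpa only [Function.update_idem] using h1
  have hle : ∀ r ∈ Sc Ω e i a, r ≤ ρ := by
    intro r hr
    have h1 := hρ _ hr.2
    have h2 : ‖(Function.update a.1 i r : Fin b → ℝ) i‖ ≤ ρ :=
      ((norm_le_pi_norm _ i).trans (norm_fst_le ((Function.update a.1 i r, a.2) : Aa b 0))).trans h1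
    rw [Function.update_self] at h2
    exact (le_abs_self r).trans h2
  rcases (Sc Ω e i a).eq_empty_or_nonempty with h0 | hne
  · unfold LL
    rw [h0]
    simp
  · set L := sSup (Sc Ω e i a) with hL
    have hbdd : BddAbove (Sc Ω e i a) := ⟨ρ, hle⟩
    have hS : Sc Ω e i a = Ioo 0 L := by
      ext r
      constructor
      · intro hr
        refine ⟨hr.1, ?_⟩
        obtain ⟨ε, hε, hball⟩ := Metric.isOpen_iff.1 hop r hr
        have h1 : r + ε / 2 ∈ Sc Ω e i a := hball (by
          rw [Metric.mem_ball, Real.dist_eq, add_sub_cancel_left, abs_of_pos (by positivity)]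
          linarith)
        have h2 := le_csSup hbdd h1
        linarith
      · rintro ⟨h1, h2⟩
        obtain ⟨r', hr', hlt⟩ := exists_lt_of_lt_csSup hne h2
        exact hdown r' hr' r h1 hlt.le
    have hL0 : 0 ≤ L := by
      obtain ⟨r, hr⟩ := hne
      exact hr.1.le.trans (le_csSup hbdd hr)
    have h3 : LL Ω e i a = L := by
      unfold LL
      rw [hS, Real.volume_Ioo, sub_zero, ENNReal.toReal_ofReal hL0]
    rw [h3]
    exact hS

theorem LL_nn (Ω : Set (Ee d 0)) (e : Yy d) (i : Fin b) (a : Aa b 0) : 0 ≤ LL Ω e i a :=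
  ENNReal.toReal_nonneg

theorem LL_meas (H : NCm B Ω) (e : Yy d) (i : Fin b) : Measurable (LL Ω e i) := by
  have h1 : MeasurableSet {p : Aa b 0 × ℝ | 0 < p.2 ∧
      ((Function.update p.1.1 i p.2, p.1.2) : Aa b 0) ∈ D0 Ω e} := by
    refine (measurableSet_lt measurable_const measurable_snd).inter ?_
    have h2 : Continuous fun p : Aa b 0 × ℝ => ((Function.update p.1.1 i p.2, p.1.2) : Aa b 0) :=
      ((continuous_fst.comp continuous_fst).update i continuous_snd).prodMk
        (continuous_snd.comp continuous_fst)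
    exact ((D0_open H.dΩ e).preimage h2).measurableSet
  exact (measurable_measure_prodMk_left (ν := (volume : Measure ℝ)) h1).ennreal_toReal

theorem LL_update (Ω : Set (Ee d 0)) (e : Yy d) (i : Fin b) (a : Aa b 0) (r : ℝ) :
    LL Ω e i (Function.update a.1 i r, a.2) = LL Ω e i a := by
  unfold LL Sc
  simp only [Function.update_idem]

theorem al0_upd_le (H : NCm B Ω) {e : Yy d} (he : ∀ i, gauge (B i) (e i) = 1) (i : Fin b)
    {F G : Aa b 0 → ℝ≥0∞} (hF : Measurable F) (hG : Measurable G)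
    (h : ∀ a : Aa b 0, ∫⁻ r in Ioo 0 (LL Ω e i a), ENNReal.ofReal (d i * r ^ (d i - 1)) *
        F (Function.update a.1 i r, a.2) ≤
      ∫⁻ r in Ioo 0 (LL Ω e i a), ENNReal.ofReal (d i * r ^ (d i - 1)) *
        G (Function.update a.1 i r, a.2)) :
    ∫⁻ a, F a ∂(al Ω e) ≤ ∫⁻ a, G a ∂(al Ω e) := by
  have hDm := (D0_open H.dΩ e).measurableSet
  have hWm := Wt_meas d 0
  have e1 : ∀ F : Aa b 0 → ℝ≥0∞, Measurable F → ∫⁻ a, F a ∂(al Ω e) =
      (al0 Ω e univ)⁻¹ * ∫⁻ a, (D0 Ω e).indicator (fun a => Wt d 0 a * F a) a := by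
    intro F hF
    unfold al
    rw [lintegral_smul_measure, smul_eq_mul]
    congr 1
    unfold al0
    rw [restrict_withDensity hDm, lintegral_withDensity_eq_lintegral_mul _ hWm hF,
      lintegral_indicator hDm]
    rfl
  rw [e1 F hF, e1 G hG]
  refine mul_le_mul_right ?_ _
  have hm : ∀ F : Aa b 0 → ℝ≥0∞, Measurable F →
      Measurable ((D0 Ω e).indicator (fun a => Wt d 0 a * F a)) := fun F hF =>
    (hWm.mul hF).indicator hDm
  have e2 : ∀ F : Aa b 0 → ℝ≥0∞, Measurable F →
      ∫⁻ a, (D0 Ω e).indicator (fun a => Wt d 0 a * F a) a =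
      ∫⁻ y : Fin 0 → ℝ, ∫⁻ x : Fin b → ℝ, (D0 Ω e).indicator (fun a => Wt d 0 a * F a) (x, y) := by
    intro F hF
    rw [show (volume : Measure (Aa b 0)) = (volume : Measure (Fin b → ℝ)).prod volume from rfl,
      lintegral_prod_symm' _ (hm F hF)]
  rw [e2 F hF, e2 G hG]
  refine lintegral_mono fun y => ?_
  rw [volume_pi]
  refine upd_le (fun _ => volume) ((hm F hF).comp measurable_prodMk_right)
    ((hm G hG).comp measurable_prodMk_right) i fun x => ?_
  have e3 : ∀ F : Aa b 0 → ℝ≥0∞, Measurable F →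
      ∫⁻ r : ℝ, (D0 Ω e).indicator (fun a => Wt d 0 a * F a) (Function.update x i r, y) =
      (∏ j ∈ Finset.univ.erase i, wt (d j) (x j)) * ∫⁻ r in Ioo 0 (LL Ω e i (x, y)),
        ENNReal.ofReal (d i * r ^ (d i - 1)) * F (Function.update x i r, y) := by
    intro F hF
    have hup : Measurable fun r : ℝ => ((Function.update x i r, y) : Aa b 0) :=
      (upd_cont i (x, y)).measurable
    have hFu : Measurable fun r : ℝ => F ((Function.update x i r, y) : Aa b 0) := hF.comp hup
    have hm3 : Measurable fun r : ℝ => ENNReal.ofReal (d i * r ^ (d i - 1)) *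
        F ((Function.update x i r, y) : Aa b 0) := Measurable.mul (by fun_prop) hFu
    rw [← lintegral_indicator measurableSet_Ioo, ← lintegral_const_mul _ (hm3.indicator
      measurableSet_Ioo)]
    congr 1
    ext r
    have hW : Wt d 0 ((Function.update x i r, y) : Aa b 0) =
        (∏ j ∈ Finset.univ.erase i, wt (d j) (x j)) * wt (d i) r := by
      unfold Wt
      rw [← Finset.mul_prod_erase _ _ (Finset.mem_univ i)]
      simp only [Function.update_self]
      rw [mul_comm]
      congr 1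
      refine Finset.prod_congr rfl fun j hj => ?_
      rw [Function.update_of_ne (Finset.ne_of_mem_erase hj)]
    have hSc := Sc_eq H he i (x, y)
    by_cases hr : r ∈ Ioo 0 (LL Ω e i (x, y))
    · have hr' : r ∈ Sc Ω e i (x, y) := by rw [hSc]; exact hr
      rw [indicator_of_mem hr, indicator_of_mem hr'.2, hW]
      unfold wt
      rw [indicator_of_mem (show r ∈ Ioi (0 : ℝ) from hr'.1)]
      ring
    · rw [indicator_of_notMem hr, mul_zero]
      by_cases hr0 : 0 < r
      · rw [indicator_of_notMem]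
        intro h'
        exact hr (by rw [← hSc]; exact ⟨hr0, h'⟩)
      · refine indicator_apply_eq_zero.2 fun _ => ?_
        rw [hW]
        have : wt (d i) r = 0 := by
          unfold wt
          exact indicator_of_notMem hr0 _
        rw [this, mul_zero, zero_mul]
  rw [e3 F hF, e3 G hG]
  exact mul_le_mul_right (h (x, y)) _

end Pool.Agent.Q188.MB
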